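import Mathlib

set_option autoImplicit false

/-!
Disjoint residue classes modulo powers of two with total density at most one.
-/

namespace Pool.Agent.helper63.Cas

lemma count_class (a b c : ℕ) (hab : a ≤ b) :
    ((Finset.range (2 ^ b)).filter (fun r => r ≡ c [MOD 2 ^ a])).card = 2 ^ (b - a) := by
  rw [← Nat.count_eq_card_filter_range, Nat.count_modEq_card _ (by positivity)]
  have h : 2 ^ b = 2 ^ a * 2 ^ (b - a) := by rw [← pow_add]; congr 1; omega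
  rw [h, Nat.mul_div_cancel_left _ (by positivity), Nat.mul_mod_right]
  simp

lemma alloc_aux {ι : Type} [DecidableEq ι] (e : ι → ℕ) (s : Finset ι) :
    (∑ i ∈ s, (1 / 2 : ℝ) ^ (e i) ≤ 1) →
    ∃ ρ : ι → ℕ, ∀ i ∈ s, ∀ j ∈ s, i ≠ j →
      ∀ n : ℕ, ¬ (n ≡ ρ i [MOD 2 ^ e i] ∧ n ≡ ρ j [MOD 2 ^ e j]) := by
  induction s using Finset.induction_on_max_value e with
  | empty => intro _; exact ⟨fun _ => 0, by simp⟩
  | insert a s ha hmax ih =>
    intro hsum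
    rw [Finset.sum_insert ha] at hsum
    have hpos : (0 : ℝ) < (1 / 2) ^ (e a) := by positivity
    obtain ⟨ρ, hρ⟩ := ih (by linarith)
    -- an uncovered residue
    obtain ⟨r, hr⟩ : ∃ r : ℕ, ∀ x ∈ s, ¬ r ≡ ρ x [MOD 2 ^ e x] := by
      by_contra hcon
      push Not at hcon
      have hcov : Finset.range (2 ^ e a) ⊆
          s.biUnion (fun x => (Finset.range (2 ^ e a)).filter (fun r => r ≡ ρ x [MOD 2 ^ e x])) := by
        intro r hr
        obtain ⟨x, hx, hxr⟩ := hcon r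
        simp only [Finset.mem_biUnion, Finset.mem_filter]
        exact ⟨x, hx, hr, hxr⟩
      have h1 := Finset.card_le_card hcov
      have h2 := h1.trans Finset.card_biUnion_le
      rw [Finset.card_range, Finset.sum_congr rfl (fun x hx => count_class (e x) (e a) (ρ x) (hmax x hx))]
        at h2
      have h3 : ((2 : ℝ) ^ e a) ≤ ∑ x ∈ s, (2 : ℝ) ^ (e a - e x) := by exact_mod_cast h2
      have h4 : ∑ x ∈ s, (2 : ℝ) ^ (e a - e x) = 2 ^ e a * ∑ x ∈ s, (1 / 2 : ℝ) ^ (e x) := by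
        rw [Finset.mul_sum]
        apply Finset.sum_congr rfl
        intro x hx
        have h5 : (2 : ℝ) ^ e a = 2 ^ (e a - e x) * 2 ^ e x := by
          rw [← pow_add]; congr 1; have := hmax x hx; omega
        rw [h5, mul_assoc, ← mul_pow]
        norm_num
      rw [h4] at h3
      have h6 : (0 : ℝ) < 2 ^ e a := by positivity
      have h7 : 1 ≤ ∑ x ∈ s, (1 / 2 : ℝ) ^ (e x) := by
        have : (2 : ℝ) ^ e a * 1 ≤ 2 ^ e a * ∑ x ∈ s, (1 / 2 : ℝ) ^ (e x) := by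
          rw [mul_one]; exact h3
        exact le_of_mul_le_mul_left this h6
      linarith
    have hkey : ∀ x ∈ s, ∀ n : ℕ, ¬ (n ≡ r [MOD 2 ^ e a] ∧ n ≡ ρ x [MOD 2 ^ e x]) := by
      rintro x hx n ⟨h1, h2⟩
      have h3 : n ≡ r [MOD 2 ^ e x] := h1.of_dvd (pow_dvd_pow 2 (hmax x hx))
      exact hr x hx (h3.symm.trans h2)
    refine ⟨fun i => if i = a then r else ρ i, ?_⟩
    intro i hi j hj hij n
    rw [Finset.mem_insert] at hi hj
    rcases hi with rfl | hi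
    · rcases hj with rfl | hj
      · exact absurd rfl hij
      · have hja : j ≠ i := fun h => hij h.symm
        simp only [if_true, if_neg hja]
        exact hkey j hj n
    · have hia : i ≠ a := fun h => ha (h ▸ hi)
      rcases hj with rfl | hj
      · simp only [if_true, if_neg hia]
        rintro ⟨h1, h2⟩
        exact hkey i hi n ⟨h2, h1⟩
      · have hja : j ≠ a := fun h => ha (h ▸ hj)
        simp only [if_neg hia, if_neg hja]
        exact hρ i hi j hj hij n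

/-- disjoint classes -/
lemma alloc {ι : Type} [Fintype ι] (e : ι → ℕ) (h : ∑ i : ι, (1 / 2 : ℝ) ^ (e i) ≤ 1) :
    ∃ ρ : ι → ℕ, ∀ i j, i ≠ j → ∀ n : ℕ, ¬ (n ≡ ρ i [MOD 2 ^ e i] ∧ n ≡ ρ j [MOD 2 ^ e j]) := by
  classical
  obtain ⟨ρ, hρ⟩ := alloc_aux e Finset.univ h
  exact ⟨ρ, fun i j hij => hρ i (Finset.mem_univ _) j (Finset.mem_univ _) hij⟩

/-- disjoint classes inside a fixed class mod 8 -/
lemma alloc8 {ι : Type} [Fintype ι] (k : ι → ℕ) (hk : ∀ i, 3 ≤ k i)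
    (h : ∑ i : ι, (1 / 2 : ℝ) ^ (k i) ≤ 1 / 8) (c : ℕ) :
    ∃ ρ : ι → ℕ, (∀ i, ∀ n : ℕ, n ≡ ρ i [MOD 2 ^ k i] → n % 8 = c % 8) ∧
      ∀ i j, i ≠ j → ∀ n : ℕ, ¬ (n ≡ ρ i [MOD 2 ^ k i] ∧ n ≡ ρ j [MOD 2 ^ k j]) := by
  obtain ⟨ρ, hρ⟩ := alloc (fun i => k i - 3) (by
    have h1 : ∀ i, (1 / 2 : ℝ) ^ (k i - 3) = 8 * (1 / 2) ^ (k i) := by
      intro i
      obtain ⟨m, hm⟩ : ∃ m, k i = m + 3 := ⟨k i - 3, by have := hk i; omega⟩
      rw [hm, Nat.add_sub_cancel, pow_add]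
      norm_num
      ring
    rw [Finset.sum_congr rfl (fun i _ => h1 i), ← Finset.mul_sum]
    linarith)
  have h8 : ∀ i, (8 : ℕ) ∣ 2 ^ k i := by
    intro i
    have : (2 : ℕ) ^ 3 ∣ 2 ^ k i := pow_dvd_pow 2 (hk i)
    simpa using this
  have hA : ∀ i, ∀ n : ℕ, n ≡ (c % 8 + 8 * ρ i) [MOD 2 ^ k i] → n % 8 = c % 8 := by
    intro i n hn
    have h1 : n ≡ (c % 8 + 8 * ρ i) [MOD 8] := hn.of_dvd (h8 i)
    have h2 : n % 8 = (c % 8 + 8 * ρ i) % 8 := h1
    omega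
  have hB : ∀ i, ∀ n : ℕ, n ≡ (c % 8 + 8 * ρ i) [MOD 2 ^ k i] → n / 8 ≡ ρ i [MOD 2 ^ (k i - 3)] := by
    intro i n hn
    have h1 := hA i n hn
    have h2 : n = c % 8 + 8 * (n / 8) := by omega
    rw [h2] at hn
    have h3 := Nat.ModEq.add_left_cancel' _ hn
    have h4 : 2 ^ k i = 8 * 2 ^ (k i - 3) := by
      have : (8 : ℕ) = 2 ^ 3 := by norm_num
      rw [this, ← pow_add]; congr 1; have := hk i; omega
    rw [h4] at h3
    exact Nat.ModEq.mul_left_cancel' (by norm_num) h3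
  refine ⟨fun i => c % 8 + 8 * ρ i, hA, ?_⟩
  rintro i j hij n ⟨h1, h2⟩
  exact hρ i j hij (n / 8) ⟨hB i n h1, hB j n h2⟩

end Pool.Agent.helper63.Cas
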