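import Mathlib

set_option autoImplicit false

/-!
Local lemmas for the Cassels basis construction (MP_1cb037_nt).
-/

namespace Pool.Agent.helper63.Cas

/-- core density step, positive error -/
lemma dens_core (r : ℝ) (a : ℤ) (b B : ℕ) (hb : 1 ≤ b) (hbB : b ≤ B) (hab : IsCoprime a (b : ℤ))
    (η : ℝ) (hη : 0 < η) (h1 : η ≤ b * r - a) (h2 : b * r - a ≤ 1 / (B + 1)) (t : ℝ) :
    ∃ x : ℕ, (x : ℝ) ≤ B + 2 / η + 1 ∧ ∃ y : ℤ, |r * x - y - t| ≤ 1 / B := by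
  obtain ⟨u, w, huw⟩ := hab
  set δ : ℝ := b * r - a with hδ
  have hbr : (0 : ℝ) < b := by exact_mod_cast hb
  have hbz : (0 : ℤ) < b := by exact_mod_cast hb
  have hδ0 : 0 < δ := lt_of_lt_of_le hη h1
  have hBr : (0 : ℝ) < B := by exact_mod_cast (lt_of_lt_of_le hb hbB : 0 < B)
  have hbBr : (b : ℝ) ≤ B := by exact_mod_cast hbB
  set c : ℤ := ⌊b * t⌋ - 1 with hc
  -- x0
  set x0 : ℤ := (c * u) % b with hx0
  have hx0a : 0 ≤ x0 := Int.emod_nonneg _ hbz.ne'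
  have hx0b : x0 < b := Int.emod_lt_of_pos _ hbz
  obtain ⟨y0, hy0⟩ : ∃ y0 : ℤ, a * x0 = c + b * y0 := by
    have h3 : x0 = c * u - b * (c * u / b) := by
      rw [hx0, Int.emod_def]
    refine ⟨-(c * w) - a * (c * u / b), ?_⟩
    rw [h3]
    linear_combination c * huw
  have hr : r = (a + δ) / b := by
    rw [hδ]; field_simp; ring
  have hx0r : (0 : ℝ) ≤ x0 := by exact_mod_cast hx0a
  have hx0r' : (x0 : ℝ) ≤ b := by exact_mod_cast hx0b.le
  have hy0r : (a : ℝ) * x0 = c + b * y0 := by exact_mod_cast hy0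
  set e0 : ℝ := r * x0 - y0 - t with he0
  have he0' : b * e0 = c + δ * x0 - b * t := by
    rw [he0, hr]
    field_simp
    linear_combination hy0r
  have hfl1 := Int.floor_le ((b : ℝ) * t)
  have hfl2 := Int.lt_floor_add_one ((b : ℝ) * t)
  have hcr : (c : ℝ) = (⌊(b : ℝ) * t⌋ : ℝ) - 1 := by rw [hc]; push_cast; ring
  have hδx : δ * x0 ≤ 1 := by
    calc δ * x0 ≤ 1 / (B + 1) * b := by
          apply mul_le_mul h2 hx0r' hx0r (by positivity)
      _ ≤ 1 / (B + 1) * (B + 1) := by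
          apply mul_le_mul_of_nonneg_left (by linarith) (by positivity)
      _ = 1 := by field_simp
  have hδx0 : 0 ≤ δ * x0 := by positivity
  have he1 : b * e0 ≤ 0 := by rw [he0', hcr]; linarith
  have he2 : -2 ≤ b * e0 := by rw [he0', hcr]; linarith
  have he1' : e0 ≤ 0 := by
    by_contra hcon
    push Not at hcon
    have := mul_pos hbr hcon
    linarith
  set K : ℕ := ⌊-e0 / δ⌋₊ with hK
  have hKle : (K : ℝ) ≤ -e0 / δ := Nat.floor_le (div_nonneg (by linarith) hδ0.le)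
  have hKlt : -e0 / δ < K + 1 := Nat.lt_floor_add_one _
  rw [le_div_iff₀ hδ0] at hKle
  rw [div_lt_iff₀ hδ0] at hKlt
  refine ⟨x0.toNat + b * K, ?_, y0 + a * K, ?_⟩
  · push_cast
    have h4 : ((x0.toNat : ℕ) : ℝ) = (x0 : ℝ) := by
      have : ((x0.toNat : ℕ) : ℤ) = x0 := Int.toNat_of_nonneg hx0a
      exact_mod_cast this
    rw [h4]
    have h5 : (b * K : ℝ) ≤ 2 / η := by
      rw [le_div_iff₀ hη]
      calc (b * K : ℝ) * η ≤ b * K * δ := by
            apply mul_le_mul_of_nonneg_left h1 (by positivity)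
        _ = b * (K * δ) := by ring
        _ ≤ b * (-e0) := mul_le_mul_of_nonneg_left hKle hbr.le
        _ ≤ 2 := by linarith
    linarith
  · push_cast
    have h4 : ((x0.toNat : ℕ) : ℝ) = (x0 : ℝ) := by
      have : ((x0.toNat : ℕ) : ℤ) = x0 := Int.toNat_of_nonneg hx0a
      exact_mod_cast this
    rw [h4]
    have h5 : r * (x0 + b * K) - (y0 + a * K) - t = e0 + K * δ := by
      rw [he0, hδ]; ring
    rw [h5, abs_le]
    have h6 : δ ≤ 1 / B := h2.trans (by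
      apply one_div_le_one_div_of_le hBr; linarith)
    constructor
    · linarith
    · have : (0 : ℝ) ≤ 1 / B := by positivity
      linarith

/-- If `r` has no good rational approximation with denominator `≤ B`, then the multiples of `r`
are dense at scale `1/B` within `B + 2/η + 1` steps. -/
lemma dens (r : ℝ) (B : ℕ) (hB : 1 ≤ B) (η : ℝ) (hη : 0 < η)
    (hg : ∀ b : ℕ, 1 ≤ b → b ≤ B → ∀ a : ℤ, η ≤ |b * r - a|) (t : ℝ) :
    ∃ x : ℕ, (x : ℝ) ≤ B + 2 / η + 1 ∧ ∃ y : ℤ, |r * x - y - t| ≤ 1 / B := by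
  obtain ⟨j, k, hk0, hkB, hjk⟩ := Real.exists_int_int_abs_mul_sub_le r (n := B) (by omega)
  -- reduce to lowest terms
  obtain ⟨a, b, hb0, hbk, hab, habs⟩ : ∃ (a : ℤ) (b : ℕ), 1 ≤ b ∧ b ≤ B ∧ IsCoprime a (b : ℤ) ∧
      |b * r - a| ≤ 1 / (B + 1) := by
    set g : ℤ := (Int.gcd j k : ℤ) with hg'
    have hg0 : 0 < g := by
      have : Int.gcd j k ≠ 0 := by
        intro h
        rw [Int.gcd_eq_zero_iff] at h
        omega
      rw [hg']; exact_mod_cast Nat.pos_of_ne_zero this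
    obtain ⟨a, ha⟩ : g ∣ j := Int.gcd_dvd_left _ _
    obtain ⟨b, hb⟩ : g ∣ k := Int.gcd_dvd_right _ _
    have hb0 : 0 < b := by
      by_contra hcon
      push Not at hcon
      have : g * b ≤ 0 := mul_nonpos_of_nonneg_of_nonpos hg0.le hcon
      omega
    have hbk : b ≤ k := by
      rw [hb]
      nlinarith
    have hcop : IsCoprime a b := by
      rw [Int.isCoprime_iff_gcd_eq_one]
      have h1 : Int.gcd (g * a) (g * b) = g.natAbs * Int.gcd a b := Int.gcd_mul_left _ _ _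
      rw [← ha, ← hb] at h1
      have h2 : (Int.gcd j k) = g.natAbs := by rw [hg']; rfl
      rw [← h2] at h1
      have h3 : 0 < Int.gcd j k := by
        have : (0 : ℤ) < (Int.gcd j k : ℤ) := hg0
        exact_mod_cast this
      exact Nat.eq_of_mul_eq_mul_left h3 (by omega)
    refine ⟨a, b.toNat, by omega, by omega, ?_, ?_⟩
    · rwa [Int.toNat_of_nonneg hb0.le]
    · have h4 : ((b.toNat : ℕ) : ℝ) = (b : ℝ) := by
        have : ((b.toNat : ℕ) : ℤ) = b := Int.toNat_of_nonneg hb0.le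
        exact_mod_cast this
      rw [h4]
      refine le_trans ?_ hjk
      have hgr : (1 : ℝ) ≤ g := by exact_mod_cast hg0
      have h5 : (k : ℝ) * r - j = g * (b * r - a) := by
        rw [ha, hb]; push_cast; ring
      rw [h5, abs_mul, abs_of_pos (by linarith : (0 : ℝ) < g)]
      exact le_mul_of_one_le_left (abs_nonneg _) hgr
  rcases le_total 0 ((b : ℝ) * r - a) with hs | hs
  · rw [abs_of_nonneg hs] at habs
    have := hg b hb0 hbk a
    rw [abs_of_nonneg hs] at this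
    exact dens_core r a b B hb0 hbk hab η hη this habs t
  · rw [abs_of_nonpos hs] at habs
    have := hg b hb0 hbk a
    rw [abs_of_nonpos hs] at this
    obtain ⟨x, hx, y, hy⟩ := dens_core (-r) (-a) b B hb0 hbk hab.neg_left η hη
      (by push_cast; linarith) (by push_cast; linarith) (-t)
    refine ⟨x, hx, -y, ?_⟩
    rw [← abs_neg]
    push_cast
    convert hy using 2
    ring

/-- lattice points of a residue class near a line -/
lemma lattice_pt (r : ℝ) (B : ℕ) (hB : 1 ≤ B) (η : ℝ) (hη : 0 < η)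
    (hg : ∀ b : ℕ, 1 ≤ b → b ≤ B → ∀ a : ℤ, η ≤ |b * r - a|)
    (θ : ℝ) (hθ : 0 < θ) (q : ℕ) (hq : 0 < q) (s s' : ℤ) (x0 y0 : ℝ) :
    ∃ n n' : ℤ, (q : ℤ) ∣ n - s ∧ (q : ℤ) ∣ n' - s' ∧ 0 ≤ n - x0 ∧
      n - x0 ≤ q * (B + 2 / η + 2) ∧
      |θ * (r * (n - x0) + (n' - y0))| ≤ q * θ / B := by
  have hqr : (0 : ℝ) < q := by exact_mod_cast hq
  -- starting point
  set k0 : ℤ := ⌈(x0 - s) / q⌉ with hk0
  set n0 : ℤ := s + q * k0 with hn0
  have h1 := Int.le_ceil ((x0 - s) / q)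
  have h2 := Int.ceil_lt_add_one ((x0 - s) / q)
  rw [div_le_iff₀ hqr] at h1
  have h2' : (k0 : ℝ) * q < (x0 - s) + q := by
    have : ((⌈(x0 - s) / q⌉ : ℤ) : ℝ) * q < ((x0 - s) / q + 1) * q :=
      mul_lt_mul_of_pos_right h2 hqr
    rw [add_mul, div_mul_cancel₀ _ hqr.ne', one_mul] at this
    exact this
  have hn0r : (n0 : ℝ) = s + q * k0 := by rw [hn0]; push_cast; ring
  have hlo : 0 ≤ (n0 : ℝ) - x0 := by rw [hn0r]; linarith [mul_comm (k0 : ℝ) q]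
  have hhi : (n0 : ℝ) - x0 ≤ q := by rw [hn0r]; linarith [mul_comm (k0 : ℝ) q]
  obtain ⟨x, hx, y, hy⟩ := dens r B hB η hη hg (-((r * (n0 - x0) + (s' - y0)) / q))
  refine ⟨n0 + q * x, s' - q * y, ⟨k0 + x, by rw [hn0]; ring⟩, ⟨-y, by ring⟩, ?_, ?_, ?_⟩
  · push_cast
    have : (0 : ℝ) ≤ q * x := by positivity
    linarith
  · push_cast
    have : (q : ℝ) * x ≤ q * (B + 2 / η + 1) := mul_le_mul_of_nonneg_left hx hqr.le
    linarith
  · push_cast
    have h3 : θ * (r * (n0 + q * x - x0) + (s' - q * y - y0)) =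
        (q * θ) * (r * x - y - -((r * (n0 - x0) + (s' - y0)) / q)) := by
      field_simp
      ring
    rw [h3, abs_mul, abs_of_pos (by positivity : (0 : ℝ) < q * θ)]
    calc (q * θ) * |r * x - y - -((r * (n0 - x0) + (s' - y0)) / q)|
        ≤ (q * θ) * (1 / B) := mul_le_mul_of_nonneg_left hy (by positivity)
      _ = q * θ / B := by ring

/-- failure of the floor sum forces `X` to be near an integer -/
lemma floor_fail (X Y κ : ℝ) (M : ℤ) (h : |X + Y - (M + 1)| ≤ κ) (hne : ⌊X⌋ + ⌊Y⌋ ≠ M) :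
    ∃ k : ℤ, |X - k| ≤ κ := by
  rw [abs_le] at h
  have hf1 := Int.floor_le X
  have hf2 := Int.lt_floor_add_one X
  have hg1 := Int.floor_le Y
  have hg2 := Int.lt_floor_add_one Y
  rcases lt_or_gt_of_ne hne with hlt | hgt
  · -- sum ≤ M - 1
    have h1 : ⌊X⌋ + ⌊Y⌋ + 1 ≤ M := by omega
    have h2 : ((⌊X⌋ : ℝ) + ⌊Y⌋ + 1) ≤ M := by exact_mod_cast h1
    refine ⟨⌊X⌋ + 1, ?_⟩
    push_cast
    rw [abs_le]
    constructor <;> linarith
  · have h1 : M + 1 ≤ ⌊X⌋ + ⌊Y⌋ := by omega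
    have h2 : ((M : ℝ) + 1) ≤ ⌊X⌋ + ⌊Y⌋ := by exact_mod_cast h1
    refine ⟨⌊X⌋, ?_⟩
    rw [abs_le]
    constructor <;> linarith

/-- simultaneous congruence mod `2^k` and mod `3` -/
lemma crt3 (k : ℕ) (s i : ℤ) : ∃ c : ℤ, (2 : ℤ) ^ k ∣ c - s ∧ (3 : ℤ) ∣ c - i := by
  have h : IsCoprime ((2 : ℤ) ^ k) 3 := by
    apply IsCoprime.pow_left
    exact ⟨-1, 1, by norm_num⟩
  obtain ⟨u, w, huw⟩ := h
  refine ⟨s * (3 * w) + i * (u * 2 ^ k), ⟨(i - s) * u, ?_⟩, ⟨(s - i) * w, ?_⟩⟩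
  · linear_combination s * huw
  · linear_combination i * huw

/-- The exactness lemma: two nearly linear real sequences with badly approximable slope ratio;
one of the two dithered floor sums hits the target `M` exactly. -/
lemma exact_hit (r : ℝ) (hr : 1 ≤ r) (B : ℕ) (hB : 1 ≤ B) (η : ℝ) (hη : 0 < η)
    (hg : ∀ b : ℕ, 1 ≤ b → b ≤ B → ∀ a : ℤ, η ≤ |b * r - a|)
    (θ : ℝ) (hθ : 0 < θ) (k : ℕ) (hθB : (3 * 2 ^ k : ℕ) * θ / B ≤ 1 / 168)
    (x0 y0 X0 Y0 : ℝ) (M : ℤ) (X Y : ℤ → ℝ) (W : ℝ)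
    (hW : 5 * (r * ((3 * 2 ^ k : ℕ) * (B + 2 / η + 2)) + (3 * 2 ^ k : ℕ)) ≤ W)
    (hX : ∀ n : ℤ, |n - x0| ≤ W → |X n - (X0 + θ * r * (n - x0))| ≤ 1 / 100)
    (hY : ∀ n : ℤ, |n - y0| ≤ W → |Y n - (Y0 + θ * (n - y0))| ≤ 1 / 100)
    (hXY : X0 + Y0 = M + 1 / 2) (s s' : ℤ) :
    ∃ n n' : ℤ, (2 : ℤ) ^ k ∣ n - s ∧ (2 : ℤ) ^ k ∣ n' - s' ∧ |n - x0| ≤ W ∧ |n' - y0| ≤ W ∧
      ((n % 3 = 0 ∧ n' % 3 = 0 ∧ ⌊X n⌋ + ⌊Y n' + 1 / 2⌋ = M) ∨
        (n % 3 = 1 ∧ n' % 3 = 1 ∧ ⌊X n + 1 / 2⌋ + ⌊Y n'⌋ = M)) := by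
  set q : ℕ := 3 * 2 ^ k with hq
  have hq0 : 0 < q := by positivity
  have hqr : (0 : ℝ) < q := by exact_mod_cast hq0
  have hBr : (1 : ℝ) ≤ B := by exact_mod_cast hB
  set W1 : ℝ := q * (B + 2 / η + 2) with hW1
  have hW10 : 0 < W1 := by positivity
  have hrW : W1 ≤ r * W1 := le_mul_of_one_le_left hW10.le hr
  obtain ⟨sa, hsa1, hsa2⟩ := crt3 k s 0
  obtain ⟨sa', hsa1', hsa2'⟩ := crt3 k s' 0
  obtain ⟨sb, hsb1, hsb2⟩ := crt3 k s 1
  obtain ⟨sb', hsb1', hsb2'⟩ := crt3 k s' 1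
  obtain ⟨na, na', ha1, ha2, ha3, ha4, ha5⟩ :=
    lattice_pt r B hB η hη hg θ hθ q hq0 sa sa' x0 y0
  obtain ⟨nb, nb', hb1, hb2, hb3, hb4, hb5⟩ :=
    lattice_pt r B hB η hη hg θ hθ q hq0 sb sb' x0 y0
  have hq2 : (2 : ℤ) ^ k ∣ (q : ℤ) := ⟨3, by rw [hq]; push_cast; ring⟩
  have hq3 : (3 : ℤ) ∣ (q : ℤ) := ⟨2 ^ k, by rw [hq]; push_cast; ring⟩
  have dva : (2 : ℤ) ^ k ∣ na - s := by
    have := dvd_add (hq2.trans ha1) hsa1
    rwa [show na - sa + (sa - s) = na - s by ring] at this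
  have dva' : (2 : ℤ) ^ k ∣ na' - s' := by
    have := dvd_add (hq2.trans ha2) hsa1'
    rwa [show na' - sa' + (sa' - s') = na' - s' by ring] at this
  have dvb : (2 : ℤ) ^ k ∣ nb - s := by
    have := dvd_add (hq2.trans hb1) hsb1
    rwa [show nb - sb + (sb - s) = nb - s by ring] at this
  have dvb' : (2 : ℤ) ^ k ∣ nb' - s' := by
    have := dvd_add (hq2.trans hb2) hsb1'
    rwa [show nb' - sb' + (sb' - s') = nb' - s' by ring] at this
  have t3a : (3 : ℤ) ∣ na - 0 := by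
    have := dvd_add (hq3.trans ha1) hsa2
    rwa [show na - sa + (sa - 0) = na - 0 by ring] at this
  have t3a' : (3 : ℤ) ∣ na' - 0 := by
    have := dvd_add (hq3.trans ha2) hsa2'
    rwa [show na' - sa' + (sa' - 0) = na' - 0 by ring] at this
  have t3b : (3 : ℤ) ∣ nb - 1 := by
    have := dvd_add (hq3.trans hb1) hsb2
    rwa [show nb - sb + (sb - 1) = nb - 1 by ring] at this
  have t3b' : (3 : ℤ) ∣ nb' - 1 := by
    have := dvd_add (hq3.trans hb2) hsb2'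
    rwa [show nb' - sb' + (sb' - 1) = nb' - 1 by ring] at this
  -- y-bounds
  have ybd : ∀ n n' : ℤ, 0 ≤ n - x0 → n - x0 ≤ W1 →
      |θ * (r * (n - x0) + (n' - y0))| ≤ q * θ / B → |n' - y0| ≤ r * W1 + q := by
    intro n n' h1 h2 h3
    rw [abs_mul, abs_of_pos hθ] at h3
    have h4 : |r * ((n : ℝ) - x0) + (n' - y0)| ≤ q / B := by
      have h5 : θ * |r * ((n : ℝ) - x0) + (n' - y0)| ≤ θ * (q / B) := by
        calc _ ≤ q * θ / B := h3
          _ = _ := by ring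
      exact le_of_mul_le_mul_left h5 hθ
    have h6 : (q : ℝ) / B ≤ q := div_le_self hqr.le hBr
    have h7 : 0 ≤ r * ((n : ℝ) - x0) := mul_nonneg (by linarith) h1
    have h8 : r * ((n : ℝ) - x0) ≤ r * W1 := mul_le_mul_of_nonneg_left h2 (by linarith)
    rw [abs_le] at h4 ⊢
    constructor <;> linarith [h4.1, h4.2]
  have ya := ybd na na' ha3 ha4 ha5
  have yb := ybd nb nb' hb3 hb4 hb5
  have hax : |(na : ℝ) - x0| ≤ W := by
    rw [abs_of_nonneg ha3]; linarith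
  have hbx : |(nb : ℝ) - x0| ≤ W := by
    rw [abs_of_nonneg hb3]; linarith
  have hay : |(na' : ℝ) - y0| ≤ W := by
    refine ya.trans ?_; linarith
  have hby : |(nb' : ℝ) - y0| ≤ W := by
    refine yb.trans ?_; linarith
  -- third point
  set nc : ℤ := 3 * nb - 2 * na with hnc
  set nc' : ℤ := 3 * nb' - 2 * na' with hnc'
  have hncr : (nc : ℝ) = 3 * nb - 2 * na := by rw [hnc]; push_cast; ring
  have hncr' : (nc' : ℝ) = 3 * nb' - 2 * na' := by rw [hnc']; push_cast; ring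
  have hcx : |(nc : ℝ) - x0| ≤ W := by
    rw [hncr, abs_le]
    constructor <;> linarith
  have hcy : |(nc' : ℝ) - y0| ≤ W := by
    rw [hncr', abs_le]
    rw [abs_le] at ya yb
    constructor <;> linarith [ya.1, ya.2, yb.1, yb.2]
  have dvc : (2 : ℤ) ^ k ∣ nc - s := by
    obtain ⟨u, hu⟩ := dva
    obtain ⟨w, hw⟩ := dvb
    exact ⟨3 * w - 2 * u, by rw [hnc]; linear_combination 3 * hw - 2 * hu⟩
  have dvc' : (2 : ℤ) ^ k ∣ nc' - s' := by
    obtain ⟨u, hu⟩ := dva'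
    obtain ⟨w, hw⟩ := dvb'
    exact ⟨3 * w - 2 * u, by rw [hnc']; linear_combination 3 * hw - 2 * hu⟩
  have la : |θ * (r * ((na : ℝ) - x0) + (na' - y0))| ≤ 1 / 168 := ha5.trans hθB
  have lb : |θ * (r * ((nb : ℝ) - x0) + (nb' - y0))| ≤ 1 / 168 := hb5.trans hθB
  have lc : |θ * (r * ((nc : ℝ) - x0) + (nc' - y0))| ≤ 5 / 168 := by
    have : θ * (r * ((nc : ℝ) - x0) + (nc' - y0)) =
        3 * (θ * (r * ((nb : ℝ) - x0) + (nb' - y0))) -
          2 * (θ * (r * ((na : ℝ) - x0) + (na' - y0))) := by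
      rw [hncr, hncr']; ring
    rw [this, abs_le]
    rw [abs_le] at la lb
    constructor <;> linarith [la.1, la.2, lb.1, lb.2]
  have Xa := hX na hax
  have Xb := hX nb hbx
  have Xc := hX nc hcx
  have Ya := hY na' hay
  have Yb := hY nb' hby
  have Yc := hY nc' hcy
  by_contra hcon
  push Not at hcon
  -- failures
  have fa : ∃ i : ℤ, |X na - i| ≤ 1 / 20 := by
    obtain ⟨h1, -⟩ := hcon na na' dva dva' hax hay
    have h2 := h1 (by omega) (by omega)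
    have h3 : ⌊X na⌋ + ⌊Y na' + 1 / 2⌋ ≠ M := h2
    refine floor_fail (X na) (Y na' + 1 / 2) (1 / 20) M ?_ h3
    rw [abs_le] at Xa Ya la ⊢
    constructor <;> linarith [Xa.1, Xa.2, Ya.1, Ya.2, la.1, la.2]
  have fc : ∃ i : ℤ, |X nc - i| ≤ 1 / 20 := by
    obtain ⟨h1, -⟩ := hcon nc nc' dvc dvc' hcx hcy
    have h2 := h1 (by omega) (by omega)
    have h3 : ⌊X nc⌋ + ⌊Y nc' + 1 / 2⌋ ≠ M := h2
    refine floor_fail (X nc) (Y nc' + 1 / 2) (1 / 20) M ?_ h3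
    rw [abs_le] at Xc Yc lc ⊢
    constructor <;> linarith [Xc.1, Xc.2, Yc.1, Yc.2, lc.1, lc.2]
  have fb : ∃ i : ℤ, |X nb + 1 / 2 - i| ≤ 1 / 20 := by
    obtain ⟨-, h1⟩ := hcon nb nb' dvb dvb' hbx hby
    have h2 := h1 (by omega) (by omega)
    refine floor_fail (X nb + 1 / 2) (Y nb') (1 / 20) M ?_ h2
    rw [abs_le] at Xb Yb lb ⊢
    constructor <;> linarith [Xb.1, Xb.2, Yb.1, Yb.2, lb.1, lb.2]
  obtain ⟨i, hi⟩ := fa
  obtain ⟨j, hj⟩ := fb
  obtain ⟨l, hl⟩ := fc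
  rw [hncr] at Xc
  rw [abs_le] at hi hj hl Xa Xb Xc
  -- the integer l - 3 j + 2 i + 3/2 is small
  have hz : |((2 * (l - 3 * j + 2 * i) + 3 : ℤ) : ℝ)| < 1 := by
    push_cast
    rw [abs_lt]
    constructor <;> linarith [hi.1, hi.2, hj.1, hj.2, hl.1, hl.2, Xa.1, Xa.2, Xb.1, Xb.2, Xc.1, Xc.2]
  have hz' : |2 * (l - 3 * j + 2 * i) + 3| < 1 := by exact_mod_cast hz
  rw [abs_lt] at hz'
  omega

end Pool.Agent.helper63.Cas
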