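import Mathlib
import Pool.Agent.helper63.Cas.Local

set_option autoImplicit false

/-!
Analytic part: the floor sum hit near the real point with prescribed slope ratio.
-/

namespace Pool.Agent.helper63.Cas

/-- slope ratio without good rational approximations -/
def Good (β k : ℕ) (r : ℝ) : Prop :=
  ∀ b : ℕ, 1 ≤ b → b ≤ 2 ^ (k + β) → ∀ a : ℤ, 1 / 2 ^ (23 + k + β) ≤ |b * r - a|

/-- the floor identity -/
def Hit (p : ℕ) (lam D s t : ℝ) (M : ℤ) (n n' : ℕ) : Prop :=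
  (n % 3 = 0 ∧ n' % 3 = 0 ∧
      ⌊(lam * (n : ℝ) ^ (p + 1) - s) / D⌋ + ⌊(lam * (n' : ℝ) ^ (p + 1) - t) / D + 1 / 2⌋ = M) ∨
    (n % 3 = 1 ∧ n' % 3 = 1 ∧
      ⌊(lam * (n : ℝ) ^ (p + 1) - s) / D + 1 / 2⌋ + ⌊(lam * (n' : ℝ) ^ (p + 1) - t) / D⌋ = M)

/-- second order Taylor bound for powers -/
lemma taylor_pow (x y Z : ℝ) (hx : 0 ≤ x) (hy : 0 ≤ y) (hxZ : x ≤ Z) (hyZ : y ≤ Z) (p : ℕ) :
    Z * |y ^ (p + 1) - x ^ (p + 1) - (p + 1) * x ^ p * (y - x)| ≤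
      (p + 1) ^ 2 * Z ^ p * (y - x) ^ 2 := by
  have hZ : 0 ≤ Z := hx.trans hxZ
  induction p with
  | zero =>
    have : y ^ (0 + 1) - x ^ (0 + 1) - ((0 : ℕ) + 1) * x ^ 0 * (y - x) = 0 := by
      push_cast; ring
    rw [this, abs_zero, mul_zero]
    positivity
  | succ p ih =>
    have h1 : y ^ (p + 1 + 1) - x ^ (p + 1 + 1) - ((p + 1 : ℕ) + 1) * x ^ (p + 1) * (y - x) =
        y * (y ^ (p + 1) - x ^ (p + 1) - (p + 1) * x ^ p * (y - x)) +
          (p + 1) * x ^ p * (y - x) ^ 2 := by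
      push_cast; ring
    rw [h1]
    have h2 : |(p + 1) * x ^ p * (y - x) ^ 2| ≤ (p + 1) * Z ^ p * (y - x) ^ 2 := by
      rw [abs_of_nonneg (by positivity)]
      gcongr
    have h3 : |y * (y ^ (p + 1) - x ^ (p + 1) - (p + 1) * x ^ p * (y - x))| ≤
        Z * |y ^ (p + 1) - x ^ (p + 1) - (p + 1) * x ^ p * (y - x)| := by
      rw [abs_mul, abs_of_nonneg hy]
      gcongr
    have h4 := abs_add_le (y * (y ^ (p + 1) - x ^ (p + 1) - (p + 1) * x ^ p * (y - x)))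
      ((p + 1) * x ^ p * (y - x) ^ 2)
    calc Z * _ ≤ Z * ((p + 1) ^ 2 * Z ^ p * (y - x) ^ 2 + (p + 1) * Z ^ p * (y - x) ^ 2) := by
          apply mul_le_mul_of_nonneg_left _ hZ
          linarith
      _ = ((p + 1) ^ 2 + (p + 1)) * (Z ^ (p + 1) * (y - x) ^ 2) := by ring
      _ ≤ ((p + 1 : ℕ) + 1) ^ 2 * (Z ^ (p + 1) * (y - x) ^ 2) := by
          apply mul_le_mul_of_nonneg_right _ (by positivity)
          push_cast
          have : (0 : ℝ) ≤ p := by positivity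
          nlinarith
      _ = _ := by ring

/-- the real point on the curve with slope ratio `exp u` -/
lemma real_point (p : ℕ) (hp : 1 ≤ p) (u T : ℝ) (hu0 : 0 ≤ u) (hu2 : u ≤ 2) (hT : 0 < T) :
    ∃ x0 y0 : ℝ, T / 8 ≤ y0 ∧ y0 ≤ x0 ∧ x0 ≤ T ∧ x0 = Real.exp (u / p) * y0 ∧
      x0 ^ p = Real.exp u * y0 ^ p ∧ x0 ^ (p + 1) + y0 ^ (p + 1) = T ^ (p + 1) := by
  have hpr : (1 : ℝ) ≤ p := by exact_mod_cast hp
  set E : ℝ := Real.exp (u / p) with hE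
  have hE1 : 1 ≤ E := Real.one_le_exp (by positivity)
  have hEp : E ^ p = Real.exp u := by
    rw [hE, ← Real.exp_nat_mul]
    congr 1
    field_simp
  set A : ℝ := E ^ (p + 1) + 1 with hA
  have hA1 : 1 ≤ A := by
    rw [hA]
    have : 0 < E ^ (p + 1) := by positivity
    linarith
  have hAub : A ≤ 64 := by
    rw [hA, pow_succ, hEp]
    have h1 : Real.exp u ≤ Real.exp 2 := Real.exp_le_exp.mpr hu2
    have h2 : E ≤ Real.exp 2 := by
      rw [hE]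
      apply Real.exp_le_exp.mpr
      calc u / p ≤ u / 1 := div_le_div_of_nonneg_left hu0 (by norm_num) hpr
        _ ≤ 2 := by linarith
    have h3 : Real.exp 2 ≤ 7.4 := by
      have : Real.exp 2 = Real.exp 1 ^ 2 := by rw [← Real.exp_nat_mul]; norm_num
      rw [this]
      have h4 := Real.exp_one_lt_d9
      have h5 := Real.exp_pos 1
      nlinarith
    have h4 : Real.exp u * E ≤ 7.4 * 7.4 := by
      apply mul_le_mul (h1.trans h3) (h2.trans h3) (by positivity) (by norm_num)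
    norm_num at h4 ⊢
    linarith
  set c : ℝ := A ^ (((p + 1 : ℕ) : ℝ)⁻¹) with hc
  have hcA : c ^ (p + 1) = A := Real.rpow_inv_natCast_pow (by linarith) (by omega)
  have hc0 : 0 < c := by rw [hc]; exact Real.rpow_pos_of_pos (by linarith) _
  have hc8 : c ≤ 8 := by
    by_contra hcon
    push Not at hcon
    have h1 : (8 : ℝ) ^ (p + 1) < c ^ (p + 1) := pow_lt_pow_left₀ hcon (by norm_num) (by omega)
    rw [hcA] at h1
    have h2 : (8 : ℝ) ^ 2 ≤ 8 ^ (p + 1) := pow_le_pow_right₀ (by norm_num) (by omega)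
    norm_num at h2
    linarith
  have hy0 : 0 < T / c := by positivity
  refine ⟨E * (T / c), T / c, ?_, ?_, ?_, rfl, ?_, ?_⟩
  · exact div_le_div_of_nonneg_left hT.le hc0 hc8
  · exact le_mul_of_one_le_left hy0.le hE1
  · by_contra hcon
    push Not at hcon
    have h1 : T ^ (p + 1) < (E * (T / c)) ^ (p + 1) := pow_lt_pow_left₀ hcon hT.le (by omega)
    rw [mul_pow, div_pow, hcA] at h1
    have h2 : E ^ (p + 1) * (T ^ (p + 1) / A) = T ^ (p + 1) * (E ^ (p + 1) / A) := by ring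
    rw [h2] at h1
    have h3 : E ^ (p + 1) / A ≤ 1 := by
      rw [div_le_one (by linarith), hA]; linarith
    have h4 : 0 < T ^ (p + 1) := by positivity
    nlinarith
  · rw [mul_pow, hEp]
  · rw [mul_pow, div_pow, hcA]
    have : A ≠ 0 := by linarith
    field_simp
    rw [hA]

/-- linear approximation of the normalised power near `x0` -/
lemma lin_approx (p β k J : ℕ) (hJ : 2 * p + 3 * β + 4 * k + 70 ≤ J)
    (lam D : ℝ) (hlam : 0 < lam) (hD : 0 < D)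
    (hcond : 504 * (p + 1) * lam * (2 * 2 ^ J) ^ p ≤ 2 ^ β * D) (x0 s : ℝ)
    (hx1 : 2 ^ J / 16 ≤ x0) (hx2 : x0 ≤ 2 * 2 ^ J) (n : ℤ) (hn : |n - x0| ≤ 2 ^ (2 * k + β + 32)) :
    |(lam * (n : ℝ) ^ (p + 1) - s) / D -
      ((lam * x0 ^ (p + 1) - s) / D + ((p + 1) * lam * x0 ^ p / D) * (n - x0))| ≤ 1 / 100 := by
  have h2J : (2 : ℝ) ^ (2 * k + β + 32) ≤ 2 ^ J / 16 := by
    rw [le_div_iff₀ (by norm_num)]
    calc (2 : ℝ) ^ (2 * k + β + 32) * 16 = 2 ^ (2 * k + β + 36) := by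
          rw [show 2 * k + β + 36 = (2 * k + β + 32) + 4 by ring, pow_add (2 : ℝ) (2 * k + β + 32) 4]
          norm_num
      _ ≤ 2 ^ J := pow_le_pow_right₀ (by norm_num) (by omega)
  have hn' := hn
  rw [abs_le] at hn'
  have h2p : (0 : ℝ) < 2 ^ J := by positivity
  have hn0 : (0 : ℝ) ≤ n := by linarith [hn'.1]
  have hnZ : (n : ℝ) ≤ 4 * 2 ^ J := by linarith [hn'.2]
  have ht := taylor_pow x0 n (4 * 2 ^ J) (by linarith) hn0 (by linarith) hnZ p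
  have he : (lam * (n : ℝ) ^ (p + 1) - s) / D -
      ((lam * x0 ^ (p + 1) - s) / D + ((p + 1) * lam * x0 ^ p / D) * (n - x0)) =
      lam / D * ((n : ℝ) ^ (p + 1) - x0 ^ (p + 1) - (p + 1) * x0 ^ p * (n - x0)) := by
    field_simp
    ring
  rw [he, abs_mul, abs_of_pos (by positivity : 0 < lam / D)]
  set R := |(n : ℝ) ^ (p + 1) - x0 ^ (p + 1) - (p + 1) * x0 ^ p * (n - x0)| with hR
  have hsq : ((n : ℝ) - x0) ^ 2 ≤ (2 ^ (2 * k + β + 32)) ^ 2 := by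
    rw [← sq_abs ((n : ℝ) - x0)]
    exact pow_le_pow_left₀ (abs_nonneg _) hn 2
  have h1 : 4 * 2 ^ J * R ≤ (p + 1) ^ 2 * (4 * 2 ^ J) ^ p * (2 ^ (2 * k + β + 32)) ^ 2 :=
    ht.trans (mul_le_mul_of_nonneg_left hsq (by positivity))
  -- multiply by lam
  have h2 : 4 * 2 ^ J * (lam * R) ≤
      ((p + 1) * lam * (2 * 2 ^ J) ^ p) * ((p + 1) * 2 ^ p * (2 ^ (2 * k + β + 32)) ^ 2) := by
    have e1 : (4 * 2 ^ J : ℝ) ^ p = (2 * 2 ^ J) ^ p * 2 ^ p := by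
      rw [← mul_pow]; congr 1; ring
    calc 4 * 2 ^ J * (lam * R) = lam * (4 * 2 ^ J * R) := by ring
      _ ≤ lam * ((p + 1) ^ 2 * (4 * 2 ^ J) ^ p * (2 ^ (2 * k + β + 32)) ^ 2) :=
          mul_le_mul_of_nonneg_left h1 hlam.le
      _ = _ := by rw [e1]; ring
  have h3 : (p + 1) * lam * (2 * 2 ^ J) ^ p ≤ 2 ^ β * D / 504 := by
    rw [le_div_iff₀ (by norm_num)]
    calc (p + 1) * lam * (2 * 2 ^ J) ^ p * 504 = 504 * (p + 1) * lam * (2 * 2 ^ J) ^ p := by ring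
      _ ≤ _ := hcond
  have hpp : ((p : ℝ) + 1) ≤ 2 ^ p := by
    have : p + 1 ≤ 2 ^ p := Nat.lt_two_pow_self
    exact_mod_cast this
  have h4 : 4 * 2 ^ J * (lam * R) ≤ (2 ^ β * D / 504) * (2 ^ p * 2 ^ p * (2 ^ (2 * k + β + 32)) ^ 2) := by
    refine h2.trans ?_
    apply mul_le_mul h3 _ (by positivity) (by positivity)
    gcongr
  have h5 : (2 : ℝ) ^ β * (2 ^ p * 2 ^ p * (2 ^ (2 * k + β + 32)) ^ 2) ≤ 2 ^ J := by
    have : (2 : ℝ) ^ β * (2 ^ p * 2 ^ p * (2 ^ (2 * k + β + 32)) ^ 2) =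
        2 ^ (β + (p + p + (2 * k + β + 32) * 2)) := by
      rw [← pow_mul, ← pow_add, ← pow_add, ← pow_add]
    rw [this]
    exact pow_le_pow_right₀ (by norm_num) (by omega)
  have h6 : 4 * 2 ^ J * (lam * R) ≤ D / 504 * 2 ^ J := by
    calc 4 * 2 ^ J * (lam * R) ≤ _ := h4
      _ = D / 504 * (2 ^ β * (2 ^ p * 2 ^ p * (2 ^ (2 * k + β + 32)) ^ 2)) := by ring
      _ ≤ D / 504 * 2 ^ J := mul_le_mul_of_nonneg_left h5 (by positivity)
  have h7 : lam * R ≤ D / 100 := by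
    have h8 : 2 ^ J * (4 * (lam * R)) ≤ 2 ^ J * (D / 504) := by linarith
    have h9 := le_of_mul_le_mul_left h8 h2p
    linarith
  calc lam / D * R = lam * R / D := by ring
    _ ≤ D / 100 / D := div_le_div_of_nonneg_right h7 hD.le
    _ = 1 / 100 := by field_simp

/-- Main analytic lemma: for a good direction there is a pair hitting the target exactly. -/
lemma hit_near (p β k J : ℕ) (hp : 1 ≤ p) (hJ : 2 * p + 3 * β + 4 * k + 70 ≤ J)
    (lam D : ℝ) (hlam : 0 < lam) (hD : 0 < D)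
    (hcond : 504 * (p + 1) * lam * (2 * 2 ^ J) ^ p ≤ 2 ^ β * D)
    (u : ℝ) (hu0 : 0 ≤ u) (hu2 : u ≤ 2) (hg : Good β k (Real.exp u))
    (T : ℝ) (hT1 : 2 ^ J / 2 ≤ T) (hT2 : T ≤ 2 * 2 ^ J) :
    ∃ x0 y0 : ℝ, 2 ^ J / 16 ≤ y0 ∧ y0 ≤ x0 ∧ x0 ≤ 2 * 2 ^ J ∧ x0 = Real.exp (u / p) * y0 ∧
      ∀ (r1 r2 : ℕ) (s t : ℝ) (M : ℤ), lam * T ^ (p + 1) = D * (M + 1 / 2) + s + t →
        ∃ n n' : ℕ, n ≡ r1 [MOD 2 ^ k] ∧ n' ≡ r2 [MOD 2 ^ k] ∧
          |(n : ℝ) - x0| ≤ 2 ^ (2 * k + β + 32) ∧ |(n' : ℝ) - y0| ≤ 2 ^ (2 * k + β + 32) ∧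
          Hit p lam D s t M n n' := by
  have h2p : (0 : ℝ) < 2 ^ J := by positivity
  have hT0 : 0 < T := by linarith
  obtain ⟨x0, y0, h1, h2, h3, h4, h5, h6⟩ := real_point p hp u T hu0 hu2 hT0
  have hy0 : 2 ^ J / 16 ≤ y0 := by linarith
  have hy0' : 0 < y0 := by linarith
  refine ⟨x0, y0, hy0, h2, by linarith, h4, ?_⟩
  intro r1 r2 s t M hM
  set θ : ℝ := (p + 1) * lam * y0 ^ p / D with hθ
  have hθ0 : 0 < θ := by positivity
  have hr1 : 1 ≤ Real.exp u := Real.one_le_exp hu0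
  have hr8 : Real.exp u ≤ 8 := by
    have h1 : Real.exp u ≤ Real.exp 2 := Real.exp_le_exp.mpr hu2
    have : Real.exp 2 = Real.exp 1 ^ 2 := by rw [← Real.exp_nat_mul]; norm_num
    rw [this] at h1
    have h4 := Real.exp_one_lt_d9
    have h5 := Real.exp_pos 1
    nlinarith
  have hB : 1 ≤ 2 ^ (k + β) := Nat.one_le_two_pow
  have hg' : ∀ b : ℕ, 1 ≤ b → b ≤ 2 ^ (k + β) → ∀ a : ℤ,
      (1 / 2 ^ (23 + k + β) : ℝ) ≤ |b * Real.exp u - a| := hg
  have hθle : θ ≤ 2 ^ β / 504 := by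
    rw [hθ, div_le_div_iff₀ hD (by norm_num)]
    have : y0 ^ p ≤ (2 * 2 ^ J) ^ p := pow_le_pow_left₀ hy0'.le (by linarith) p
    calc (p + 1) * lam * y0 ^ p * 504 = 504 * (p + 1) * lam * y0 ^ p := by ring
      _ ≤ 504 * (p + 1) * lam * (2 * 2 ^ J) ^ p := by gcongr
      _ ≤ _ := hcond
  have hθB : ((3 * 2 ^ k : ℕ) : ℝ) * θ / ((2 ^ (k + β) : ℕ) : ℝ) ≤ 1 / 168 := by
    push_cast
    rw [div_le_div_iff₀ (by positivity) (by norm_num), pow_add]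
    have h2k : (0 : ℝ) < 2 ^ k := by positivity
    calc 3 * 2 ^ k * θ * 168 ≤ 3 * 2 ^ k * (2 ^ β / 504) * 168 := by gcongr
      _ = 1 * (2 ^ k * 2 ^ β) := by ring
  have hW : 5 * (Real.exp u * (((3 * 2 ^ k : ℕ) : ℝ) *
      (((2 ^ (k + β) : ℕ) : ℝ) + 2 / (1 / 2 ^ (23 + k + β) : ℝ) + 2)) + ((3 * 2 ^ k : ℕ) : ℝ)) ≤
      2 ^ (2 * k + β + 32) := by
    push_cast
    have h2k : (1 : ℝ) ≤ 2 ^ k := one_le_pow₀ (by norm_num)
    have h2β : (1 : ℝ) ≤ 2 ^ β := one_le_pow₀ (by norm_num)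
    have e1 : (2 : ℝ) / (1 / 2 ^ (23 + k + β)) = 2 ^ 24 * (2 ^ k * 2 ^ β) := by
      rw [one_div, div_inv_eq_mul, pow_add, pow_add]; ring
    have e2 : (2 : ℝ) ^ (2 * k + β + 32) = 2 ^ 32 * (2 ^ k * (2 ^ k * 2 ^ β)) := by
      rw [pow_add, pow_add, two_mul, pow_add]; ring
    rw [e1, e2, pow_add]
    set K : ℝ := 2 ^ k with hK
    set Bt : ℝ := 2 ^ β with hBt
    have hKB : 1 ≤ K * Bt := one_le_mul_of_one_le_of_one_le h2k h2β
    have e3 : K * Bt + 2 ^ 24 * (K * Bt) + 2 ≤ (2 ^ 24 + 3) * (K * Bt) := by linarith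
    have e4 : 3 * K * (K * Bt + 2 ^ 24 * (K * Bt) + 2) ≤ 3 * K * ((2 ^ 24 + 3) * (K * Bt)) := by
      gcongr
    have e5 : Real.exp u * (3 * K * (K * Bt + 2 ^ 24 * (K * Bt) + 2)) ≤
        8 * (3 * K * ((2 ^ 24 + 3) * (K * Bt))) := by
      apply mul_le_mul hr8 e4 (by positivity) (by norm_num)
    have e6 : 3 * K ≤ 3 * K * (K * Bt) := le_mul_of_one_le_right (by positivity) hKB
    have e7 : 0 ≤ K * (K * Bt) := by positivity
    calc 5 * (Real.exp u * (3 * K * (K * Bt + 2 ^ 24 * (K * Bt) + 2)) + 3 * K) ≤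
        5 * (8 * (3 * K * ((2 ^ 24 + 3) * (K * Bt))) + 3 * K * (K * Bt)) := by
          linarith
      _ = (5 * (24 * (2 ^ 24 + 3) + 3)) * (K * (K * Bt)) := by ring
      _ ≤ 2 ^ 32 * (K * (K * Bt)) := by
          apply mul_le_mul_of_nonneg_right _ e7
          norm_num
  have hslope : (p + 1) * lam * x0 ^ p / D = θ * Real.exp u := by
    rw [h5, hθ]; ring
  obtain ⟨n, n', hn1, hn2, hn3, hn4, hn5⟩ := exact_hit (Real.exp u) hr1 (2 ^ (k + β)) hB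
    (1 / 2 ^ (23 + k + β)) (by positivity) hg' θ hθ0 k hθB x0 y0
    ((lam * x0 ^ (p + 1) - s) / D) ((lam * y0 ^ (p + 1) - t) / D) M
    (fun n => (lam * (n : ℝ) ^ (p + 1) - s) / D) (fun n => (lam * (n : ℝ) ^ (p + 1) - t) / D)
    (2 ^ (2 * k + β + 32)) hW
    (fun n hn => by
      have := lin_approx p β k J hJ lam D hlam hD hcond x0 s (by linarith) (by linarith) n hn
      rwa [hslope] at this)
    (fun n hn => lin_approx p β k J hJ lam D hlam hD hcond y0 t hy0 (by linarith) n hn)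
    (by
      rw [← add_div, div_eq_iff hD.ne']
      have : lam * x0 ^ (p + 1) + lam * y0 ^ (p + 1) = lam * T ^ (p + 1) := by
        rw [← mul_add, h6]
      linarith)
    r1 r2
  -- nonnegativity
  have h2J : (2 : ℝ) ^ (2 * k + β + 32) < 2 ^ J / 16 := by
    rw [lt_div_iff₀ (by norm_num)]
    calc (2 : ℝ) ^ (2 * k + β + 32) * 16 = 2 ^ (2 * k + β + 36) := by
          rw [show 2 * k + β + 36 = (2 * k + β + 32) + 4 by ring, pow_add (2 : ℝ) (2 * k + β + 32) 4]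
          norm_num
      _ < 2 ^ J := pow_lt_pow_right₀ (by norm_num) (by omega)
  have hn3' := hn3
  have hn4' := hn4
  rw [abs_le] at hn3' hn4'
  have hnpos : (0 : ℝ) < n := by linarith [hn3'.1]
  have hnpos' : (0 : ℝ) < n' := by linarith [hn4'.1]
  have hnz : 0 ≤ n := by
    have : (0 : ℤ) < n := by exact_mod_cast hnpos
    exact this.le
  have hnz' : 0 ≤ n' := by
    have : (0 : ℤ) < n' := by exact_mod_cast hnpos'
    exact this.le
  lift n to ℕ using hnz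
  lift n' to ℕ using hnz'
  refine ⟨n, n', ?_, ?_, by simpa using hn3, by simpa using hn4, ?_⟩
  · rw [Nat.modEq_iff_dvd]
    push_cast
    rw [← dvd_neg, neg_sub]
    exact hn1
  · rw [Nat.modEq_iff_dvd]
    push_cast
    rw [← dvd_neg, neg_sub]
    exact hn2
  · rcases hn5 with ⟨h7, h8, h9⟩ | ⟨h7, h8, h9⟩
    · left
      refine ⟨by omega, by omega, ?_⟩
      simpa using h9
    · right
      refine ⟨by omega, by omega, ?_⟩
      simpa using h9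

end Pool.Agent.helper63.Cas
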