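import Mathlib
import Pool.Agent.helper63.Cas.Near

set_option autoImplicit false

/-!
Bad directions are near rationals; escaping from a bad direction by a small shift.
-/

namespace Pool.Agent.helper63.Cas

lemma exp_one_le : Real.exp 1 ≤ 2.72 := by
  have := Real.exp_one_lt_d9
  linarith

/-- a bad direction is near a rational of controlled height -/
lemma bad_near (β k : ℕ) (u : ℝ) (hu0 : 0 ≤ u) (hu1 : u ≤ 1) (hbad : ¬ Good β k (Real.exp u)) :
    ∃ i, i ≤ k + β ∧ ∃ a b : ℕ, 2 ^ i ≤ b ∧ b < 2 * 2 ^ i ∧ 1 ≤ a ∧ a < 7 * 2 ^ i ∧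
      |u - (Real.log a - Real.log b)| ≤ 2 * (1 / 2 ^ (23 + k + β)) / 2 ^ i := by
  unfold Good at hbad
  push Not at hbad
  obtain ⟨b, hb1, hbB, a, hab⟩ := hbad
  set η : ℝ := 1 / 2 ^ (23 + k + β) with hη
  have hη0 : 0 < η := by positivity
  have hη1 : η ≤ 1 / 2 := by
    rw [hη]
    apply one_div_le_one_div_of_le (by norm_num)
    calc (2 : ℝ) = 2 ^ 1 := by norm_num
      _ ≤ 2 ^ (23 + k + β) := pow_le_pow_right₀ (by norm_num) (by omega)
  have hx1 : 1 ≤ Real.exp u := Real.one_le_exp hu0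
  have hx3 : Real.exp u ≤ 2.72 := (Real.exp_le_exp.mpr hu1).trans exp_one_le
  set x := Real.exp u with hx
  have hbr : (1 : ℝ) ≤ b := by exact_mod_cast hb1
  have hi1 : 2 ^ (Nat.log 2 b) ≤ b := Nat.pow_log_le_self 2 (by omega)
  have hi2 : b < 2 ^ (Nat.log 2 b + 1) := Nat.lt_pow_succ_log_self (by norm_num) b
  have hi3 : Nat.log 2 b ≤ k + β := by
    calc Nat.log 2 b ≤ Nat.log 2 (2 ^ (k + β)) := Nat.log_mono_right hbB
      _ = k + β := Nat.log_pow (by norm_num) _
  rw [abs_lt] at hab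
  have hbx : (b : ℝ) ≤ b * x := le_mul_of_one_le_right (by linarith) hx1
  have hapos : (0 : ℝ) < a := by linarith [hab.1, hab.2]
  have hapos' : 0 < a := by exact_mod_cast hapos
  lift a to ℕ using hapos'.le
  have ha1 : 1 ≤ a := by exact_mod_cast hapos'
  have har : ((a : ℕ) : ℤ) = (a : ℤ) := rfl
  push_cast at hab hapos
  refine ⟨Nat.log 2 b, hi3, a, b, hi1, by rw [pow_succ] at hi2; omega, ha1, ?_, ?_⟩
  · -- a < 7 * 2^i
    have h1 : (a : ℝ) < b * 2.72 + 1 / 2 := by
      have : b * x ≤ b * 2.72 := mul_le_mul_of_nonneg_left hx3 (by linarith)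
      linarith [hab.1, hab.2]
    have h2 : (b : ℝ) ≤ 2 * 2 ^ (Nat.log 2 b) - 1 := by
      have : b + 1 ≤ 2 * 2 ^ (Nat.log 2 b) := by rw [pow_succ] at hi2; omega
      have h3 : ((b + 1 : ℕ) : ℝ) ≤ ((2 * 2 ^ (Nat.log 2 b) : ℕ) : ℝ) := by exact_mod_cast this
      push_cast at h3
      linarith
    have h3 : (1 : ℝ) ≤ 2 ^ (Nat.log 2 b) := one_le_pow₀ (by norm_num)
    have h4 : (a : ℝ) < 7 * 2 ^ (Nat.log 2 b) := by linarith
    exact_mod_cast h4
  · -- log bound
    have hbpos : (0 : ℝ) < b := by linarith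
    have hy : (a : ℝ) / b = x - (b * x - a) / b := by field_simp; ring
    have hd : |x - a / b| ≤ η / b := by
      rw [hy]
      have : x - (x - (b * x - a) / b) = (b * x - a) / b := by ring
      rw [this, abs_div, abs_of_pos hbpos]
      apply div_le_div_of_nonneg_right _ hbpos.le
      rw [abs_le]
      exact ⟨hab.1.le, hab.2.le⟩
    have hηb : η / b ≤ 1 / 2 := (div_le_self hη0.le hbr).trans hη1
    have hy2 : (1 : ℝ) / 2 ≤ a / b := by
      rw [abs_le] at hd
      linarith [hd.1, hd.2]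
    have hypos : (0 : ℝ) < a / b := by linarith
    have hxpos : 0 < x := by linarith
    have hu : u = Real.log x := by rw [hx, Real.log_exp]
    have hlab : Real.log a - Real.log b = Real.log (a / b) := by
      rw [Real.log_div hapos.ne' hbpos.ne']
    rw [hlab, hu]
    have hmain : |Real.log x - Real.log (a / b)| ≤ 2 * |x - a / b| := by
      have h1 : Real.log x - Real.log (a / b) ≤ (x - a / b) / (a / b) := by
        rw [← Real.log_div hxpos.ne' hypos.ne']
        have := Real.log_le_sub_one_of_pos (div_pos hxpos hypos)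
        refine this.trans (le_of_eq ?_)
        field_simp
      have h2 : Real.log (a / b) - Real.log x ≤ (a / b - x) / x := by
        rw [← Real.log_div hypos.ne' hxpos.ne']
        have := Real.log_le_sub_one_of_pos (div_pos hypos hxpos)
        refine this.trans (le_of_eq ?_)
        field_simp
      have h3 : (x - a / b) / (a / b) ≤ 2 * |x - a / b| := by
        rw [div_le_iff₀ hypos]
        have h4 := le_abs_self (x - a / b)
        have h5 := abs_nonneg (x - a / b)
        nlinarith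
      have h4 : (a / b - x) / x ≤ 2 * |x - a / b| := by
        rw [div_le_iff₀ hxpos]
        have h4 := neg_abs_le (x - a / b)
        have h5 := abs_nonneg (x - a / b)
        nlinarith
      rw [abs_le]
      constructor <;> linarith
    have hb2 : η / b ≤ η / 2 ^ (Nat.log 2 b) := by
      apply div_le_div_of_nonneg_left hη0.le (by positivity)
      exact_mod_cast hi1
    calc |Real.log x - Real.log (a / b)| ≤ 2 * |x - a / b| := hmain
      _ ≤ 2 * (η / 2 ^ (Nat.log 2 b)) := by linarith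
      _ = _ := by ring

/-- escaping a bad direction by a small explicit shift -/
lemma escape (β k : ℕ) (u : ℝ) (hu0 : 0 ≤ u) (hu1 : u ≤ 1) (hbad : ¬ Good β k (Real.exp u)) :
    ∃ i, i ≤ k + β ∧ Good β k (Real.exp (u + 1 / 2 ^ (k + β + i + 5))) := by
  unfold Good at hbad
  push Not at hbad
  obtain ⟨b0, hb01, hb0B, a0, hab0⟩ := hbad
  set η : ℝ := 1 / 2 ^ (23 + k + β) with hη
  have hη0 : 0 < η := by positivity
  set x := Real.exp u with hx
  have hx1 : 1 ≤ x := Real.one_le_exp hu0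
  have hx3 : x ≤ 2.72 := (Real.exp_le_exp.mpr hu1).trans exp_one_le
  -- lowest terms
  obtain ⟨a, b, hb1, hbB, hcop, hab⟩ : ∃ (a : ℤ) (b : ℕ), 1 ≤ b ∧ b ≤ 2 ^ (k + β) ∧
      IsCoprime a (b : ℤ) ∧ |b * x - a| < η := by
    set g : ℤ := (Int.gcd a0 b0 : ℤ) with hg'
    have hg0 : 0 < g := by
      have : Int.gcd a0 b0 ≠ 0 := by
        intro h
        rw [Int.gcd_eq_zero_iff] at h
        omega
      rw [hg']; exact_mod_cast Nat.pos_of_ne_zero this
    obtain ⟨a, ha⟩ : g ∣ a0 := Int.gcd_dvd_left _ _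
    obtain ⟨b, hb⟩ : g ∣ (b0 : ℤ) := Int.gcd_dvd_right _ _
    have hb0 : 0 < b := by
      by_contra hcon
      push Not at hcon
      have : g * b ≤ 0 := mul_nonpos_of_nonneg_of_nonpos hg0.le hcon
      omega
    have hbk : b ≤ b0 := by
      rw [hb]
      nlinarith
    have hcop : IsCoprime a b := by
      rw [Int.isCoprime_iff_gcd_eq_one]
      have h1 : Int.gcd (g * a) (g * b) = g.natAbs * Int.gcd a b := Int.gcd_mul_left _ _ _
      rw [← ha, ← hb] at h1
      have h2 : (Int.gcd a0 b0) = g.natAbs := by rw [hg']; rfl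
      rw [← h2] at h1
      have h3 : 0 < Int.gcd a0 b0 := by
        have : (0 : ℤ) < (Int.gcd a0 b0 : ℤ) := hg0
        exact_mod_cast this
      exact Nat.eq_of_mul_eq_mul_left h3 (by omega)
    refine ⟨a, b.toNat, by omega, by omega, ?_, ?_⟩
    · rwa [Int.toNat_of_nonneg hb0.le]
    · have h4 : ((b.toNat : ℕ) : ℝ) = (b : ℝ) := by
        have : ((b.toNat : ℕ) : ℤ) = b := Int.toNat_of_nonneg hb0.le
        exact_mod_cast this
      rw [h4]
      refine lt_of_le_of_lt ?_ hab0
      have hgr : (1 : ℝ) ≤ g := by exact_mod_cast hg0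
      have hbr : (b0 : ℝ) = g * b := by
        have : ((b0 : ℤ) : ℝ) = ((g * b : ℤ) : ℝ) := by rw [hb]
        push_cast at this
        exact this
      have h5 : (b0 : ℝ) * x - a0 = g * (b * x - a) := by
        rw [ha, hbr]; push_cast; ring
      rw [h5, abs_mul, abs_of_pos (by linarith : (0 : ℝ) < g)]
      exact le_mul_of_one_le_left (abs_nonneg _) hgr
  have hbr : (1 : ℝ) ≤ b := by exact_mod_cast hb1
  have hi1 : 2 ^ (Nat.log 2 b) ≤ b := Nat.pow_log_le_self 2 (by omega)
  have hi2 : b < 2 ^ (Nat.log 2 b + 1) := Nat.lt_pow_succ_log_self (by norm_num) b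
  have hi3 : Nat.log 2 b ≤ k + β := by
    calc Nat.log 2 b ≤ Nat.log 2 (2 ^ (k + β)) := Nat.log_mono_right hbB
      _ = k + β := Nat.log_pow (by norm_num) _
  set i := Nat.log 2 b with hi
  refine ⟨i, hi3, ?_⟩
  set sh : ℝ := 1 / 2 ^ (k + β + i + 5) with hsh
  have hsh0 : 0 < sh := by positivity
  have hsh1 : sh ≤ 1 / 2 := by
    rw [hsh]
    apply one_div_le_one_div_of_le (by norm_num)
    calc (2 : ℝ) = 2 ^ 1 := by norm_num
      _ ≤ 2 ^ (k + β + i + 5) := pow_le_pow_right₀ (by norm_num) (by omega)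
  set δ : ℝ := Real.exp sh - 1 with hδ
  have hδ1 : sh ≤ δ := by
    have := Real.add_one_le_exp sh
    rw [hδ]; linarith
  have hδ2 : δ ≤ 2 * sh := by
    have h1 := Real.add_one_le_exp (-sh)
    have h2 : Real.exp (-sh) * Real.exp sh = 1 := by rw [← Real.exp_add]; simp
    have h3 : 0 < Real.exp sh := Real.exp_pos _
    have h4 : (1 - sh) * Real.exp sh ≤ 1 := by
      calc (1 - sh) * Real.exp sh ≤ Real.exp (-sh) * Real.exp sh := by
            apply mul_le_mul_of_nonneg_right _ h3.le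
            linarith
        _ = 1 := h2
    rw [hδ]
    nlinarith
  have hx' : Real.exp (u + sh) = x * (1 + δ) := by
    rw [Real.exp_add, hδ, hx]; ring
  rw [hx']
  intro b' hb'1 hb'B a'
  by_contra hcon
  push Not at hcon
  have hb'r : (1 : ℝ) ≤ b' := by exact_mod_cast hb'1
  have hbBr : (b : ℝ) ≤ 2 ^ (k + β) := by exact_mod_cast hbB
  have hb'Br : (b' : ℝ) ≤ 2 ^ (k + β) := by exact_mod_cast hb'B
  have key : ((a' * b - a * b' : ℤ) : ℝ) =
      -((b' * (x * (1 + δ)) - a') * b) + b' * (b * x - a) + b * b' * (x * δ) := by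
    push_cast; ring
  have hP : (0 : ℝ) < 2 ^ (k + β) := by positivity
  have hηP : η * 2 ^ (k + β) = 1 / 2 ^ 23 := by
    rw [hη, show 23 + k + β = 23 + (k + β) by ring, pow_add (2 : ℝ) 23 (k + β)]
    field_simp
  have e1 : |(b' * (x * (1 + δ)) - a') * b| ≤ η * b := by
    rw [abs_mul, abs_of_pos (by linarith : (0 : ℝ) < b)]
    exact mul_le_mul_of_nonneg_right hcon.le (by linarith)
  have e2 : |b' * (b * x - a)| ≤ η * b' := by
    rw [abs_mul, abs_of_pos (by linarith : (0 : ℝ) < b'), mul_comm]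
    exact mul_le_mul_of_nonneg_right hab.le (by linarith)
  rw [abs_le] at e1 e2
  have e3 : b * b' * (x * δ) ≤ 2.72 / 8 := by
    have h1 : (b : ℝ) ≤ 2 * 2 ^ i := by
      have : b ≤ 2 * 2 ^ i := by rw [pow_succ] at hi2; omega
      exact_mod_cast this
    have h2 : x * δ ≤ 2.72 * (2 * sh) := mul_le_mul hx3 hδ2 (by linarith) (by norm_num)
    have h3 : (b : ℝ) * b' ≤ (2 * 2 ^ i) * 2 ^ (k + β) :=
      mul_le_mul h1 hb'Br (by linarith) (by positivity)
    have hxd : 0 ≤ x * δ := mul_nonneg (by linarith) (by linarith)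
    calc b * b' * (x * δ) ≤ ((2 * 2 ^ i) * 2 ^ (k + β)) * (2.72 * (2 * sh)) :=
          mul_le_mul h3 h2 hxd (by positivity)
      _ = 2.72 / 8 := by
          rw [hsh, show k + β + i + 5 = i + (k + β) + 5 by ring, pow_add (2 : ℝ) (i + (k + β)) 5,
            pow_add (2 : ℝ) i (k + β)]
          field_simp
          norm_num
  have hxd0 : 0 ≤ b * b' * (x * δ) := by
    have : 0 ≤ x * δ := mul_nonneg (by linarith) (by linarith)
    positivity
  have e4 : η * b ≤ 1 / 2 ^ 23 := by
    rw [← hηP]; exact mul_le_mul_of_nonneg_left hbBr hη0.le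
  have e5 : η * b' ≤ 1 / 2 ^ 23 := by
    rw [← hηP]; exact mul_le_mul_of_nonneg_left hb'Br hη0.le
  have hz : |((a' * b - a * b' : ℤ) : ℝ)| < 1 := by
    rw [key, abs_lt]
    norm_num at e4 e5 e3 ⊢
    constructor <;> linarith [e1.1, e1.2, e2.1, e2.2]
  have hz' : |a' * b - a * b'| < 1 := by exact_mod_cast hz
  have hz0 : a' * b - a * b' = 0 := by
    rw [abs_lt] at hz'; omega
  -- b divides b'
  have hdvd : (b : ℤ) ∣ b' := by
    have h1 : (b : ℤ) ∣ a * b' := ⟨a', by linarith [mul_comm a' (b : ℤ)]⟩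
    exact hcop.symm.dvd_of_dvd_mul_left h1
  have hle : b ≤ b' := by
    have : (b : ℤ) ≤ b' := Int.le_of_dvd (by exact_mod_cast hb'1) hdvd
    exact_mod_cast this
  have hler : (b : ℝ) ≤ b' := by exact_mod_cast hle
  rw [hz0] at key
  push_cast at key
  have h6 : b * b' * (x * δ) ≤ η * b + η * b' := by linarith [e1.1, e1.2, e2.1, e2.2]
  have h7 : b * b' * (x * δ) ≤ (2 * η) * b' := by
    have : η * b ≤ η * b' := mul_le_mul_of_nonneg_left hler hη0.le
    linarith
  have h8 : b * (x * δ) ≤ 2 * η := by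
    have h9 : (b * (x * δ)) * b' ≤ (2 * η) * b' := by linarith [h7]
    exact le_of_mul_le_mul_right h9 (by linarith)
  have h10 : 2 ^ i * sh ≤ b * (x * δ) := by
    have h11 : (2 : ℝ) ^ i ≤ b := by exact_mod_cast hi1
    have h12 : sh ≤ x * δ := by nlinarith
    exact mul_le_mul h11 h12 hsh0.le (by linarith)
  have h13 : 2 ^ i * sh = 1 / (2 ^ (k + β) * 32) := by
    rw [hsh, show k + β + i + 5 = i + (k + β) + 5 by ring, pow_add (2 : ℝ) (i + (k + β)) 5,
      pow_add (2 : ℝ) i (k + β)]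
    field_simp
    norm_num
  have h14 : 2 * η = 1 / (2 ^ (k + β) * 2 ^ 22) := by
    rw [hη, show 23 + k + β = 23 + (k + β) by ring, pow_add (2 : ℝ) 23 (k + β)]
    field_simp
  rw [h13] at h10
  rw [h14] at h8
  have h15 : 1 / (2 ^ (k + β) * 32 : ℝ) ≤ 1 / (2 ^ (k + β) * 2 ^ 22) := h10.trans h8
  rw [div_le_div_iff₀ (by positivity) (by positivity)] at h15
  norm_num at h15

end Pool.Agent.helper63.Cas
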