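import Mathlib
import Pool.Agent.helper63.Cas.Rat

set_option autoImplicit false

/-!
Families of labelled residue classes and the recursion over rational directions.
-/

namespace Pool.Agent.helper63.Cas

/-- number of labels served at spacing `2^k`, scale `2^J` -/
noncomputable def Lk (p β k J : ℕ) : ℝ := 2 ^ (J - (2 * k + β + 40 + p))

lemma Lk_pos (p β k J : ℕ) : 0 < Lk p β k J := by unfold Lk; positivity

/-- base label -/
noncomputable def lab1 (p β k J : ℕ) (τ : Bool) (n : ℕ) : ℤ :=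
  ⌊Lk p β k J * p * Real.log n + (if τ then 1 / 2 else 0)⌋

lemma log_close (x n m : ℝ) (hm : 0 < m) (hx : m ≤ x) (hn : m ≤ n) :
    |Real.log n - Real.log x| ≤ |n - x| / m := by
  have hx0 : 0 < x := by linarith
  have hn0 : 0 < n := by linarith
  have h1 : Real.log n - Real.log x ≤ (n - x) / x := by
    rw [← Real.log_div hn0.ne' hx0.ne']
    have := Real.log_le_sub_one_of_pos (div_pos hn0 hx0)
    refine this.trans (le_of_eq ?_)
    field_simp
  have h2 : Real.log x - Real.log n ≤ (x - n) / n := by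
    rw [← Real.log_div hx0.ne' hn0.ne']
    have := Real.log_le_sub_one_of_pos (div_pos hx0 hn0)
    refine this.trans (le_of_eq ?_)
    field_simp
  have h3 : (n - x) / x ≤ |n - x| / m := by
    calc (n - x) / x ≤ |n - x| / x := div_le_div_of_nonneg_right (le_abs_self _) hx0.le
      _ ≤ |n - x| / m := div_le_div_of_nonneg_left (abs_nonneg _) hm hx
  have h4 : (x - n) / n ≤ |n - x| / m := by
    calc (x - n) / n ≤ |n - x| / n := by
          apply div_le_div_of_nonneg_right _ hn0.le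
          rw [abs_sub_comm]; exact le_abs_self _
      _ ≤ |n - x| / m := div_le_div_of_nonneg_left (abs_nonneg _) hm hn
  rw [abs_le]
  constructor <;> linarith

lemma floor_stable (z Δ : ℝ) (h1 : 1 / 4 ≤ Int.fract z) (h2 : Int.fract z ≤ 3 / 4)
    (h3 : |Δ| < 1 / 4) : ⌊z + Δ⌋ = ⌊z⌋ := by
  rw [Int.floor_eq_iff]
  rw [abs_lt] at h3
  have := Int.floor_add_fract z
  constructor <;> linarith

lemma exists_tau (z : ℝ) : ∃ τ : Bool, 1 / 4 ≤ Int.fract (z + (if τ then 1 / 2 else 0)) ∧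
    Int.fract (z + (if τ then 1 / 2 else 0)) ≤ 3 / 4 := by
  by_cases h : 1 / 4 ≤ Int.fract z ∧ Int.fract z ≤ 3 / 4
  · exact ⟨false, by simpa using h⟩
  · refine ⟨true, ?_⟩
    simp only [if_true]
    have h0 := Int.fract_nonneg z
    have h1 := Int.fract_lt_one z
    have hz := Int.floor_add_fract z
    rcases lt_or_ge (Int.fract z) (1 / 4) with h2 | h2
    · have : Int.fract (z + 1 / 2) = Int.fract z + 1 / 2 := by
        rw [Int.fract_eq_iff]
        refine ⟨by linarith, by linarith, ⌊z⌋, by linarith⟩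
      rw [this]
      constructor <;> linarith
    · have h3 : 3 / 4 < Int.fract z := by
        by_contra hcon
        exact h ⟨h2, not_lt.mp hcon⟩
      have : Int.fract (z + 1 / 2) = Int.fract z - 1 / 2 := by
        rw [Int.fract_eq_iff]
        refine ⟨by linarith, by linarith, ⌊z⌋ + 1, by push_cast; linarith⟩
      rw [this]
      constructor <;> linarith

/-- a good direction is served by the base labels -/
lemma node_serve (p β k J : ℕ) (hp : 1 ≤ p) (hJ : 2 * p + 3 * β + 4 * k + 70 ≤ J)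
    (lam D : ℝ) (hlam : 0 < lam) (hD : 0 < D)
    (hcond : 504 * (p + 1) * lam * (2 * 2 ^ J) ^ p ≤ 2 ^ β * D)
    (w : ℤ) (hw0 : 0 ≤ w) (hw2 : (w : ℝ) ≤ 2 * Lk p β k J)
    (hg : Good β k (Real.exp (w / Lk p β k J)))
    (T : ℝ) (hT1 : 2 ^ J / 2 ≤ T) (hT2 : T ≤ 2 * 2 ^ J) :
    ∃ τ : Bool, ∀ (r1 r2 : ℕ) (s t : ℝ) (M : ℤ), lam * T ^ (p + 1) = D * (M + 1 / 2) + w + s + t →
      ∃ n n' : ℕ, n ≡ r1 [MOD 2 ^ k] ∧ n' ≡ r2 [MOD 2 ^ k] ∧
        2 ^ J ≤ 32 * n ∧ n ≤ 4 * 2 ^ J ∧ 2 ^ J ≤ 32 * n' ∧ n' ≤ 4 * 2 ^ J ∧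
        lab1 p β k J τ n - lab1 p β k J τ n' = w ∧
        Hit p lam D (lab1 p β k J τ n + s) (-(lab1 p β k J τ n' : ℝ) + t) M n n' := by
  set L := Lk p β k J with hL
  have hL0 : 0 < L := Lk_pos p β k J
  have hpr : (1 : ℝ) ≤ p := by exact_mod_cast hp
  have hwr : (0 : ℝ) ≤ w := by exact_mod_cast hw0
  obtain ⟨x0, y0, h1, h2, h3, h4, h5⟩ := hit_near p β k J hp hJ lam D hlam hD hcond (w / L)
    (by positivity) (by rw [div_le_iff₀ hL0]; exact hw2) hg T hT1 hT2
  have h2J : (0 : ℝ) < 2 ^ J := by positivity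
  have hy0 : 0 < y0 := by linarith
  have hx0 : 0 < x0 := by linarith
  have hphi : L * p * Real.log x0 = L * p * Real.log y0 + w := by
    rw [h4, Real.log_mul (Real.exp_pos _).ne' hy0.ne', Real.log_exp]
    field_simp
    ring
  obtain ⟨τ, hτ1, hτ2⟩ := exists_tau (L * p * Real.log y0)
  refine ⟨τ, ?_⟩
  intro r1 r2 s t M hM
  set e : ℝ := (if τ then 1 / 2 else 0) with he
  set P2 : ℤ := ⌊L * p * Real.log y0 + e⌋ with hP2
  have hP1 : ⌊L * p * Real.log x0 + e⌋ = P2 + w := by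
    rw [hphi, hP2, show L * p * Real.log y0 + w + e = (L * p * Real.log y0 + e) + (w : ℝ) by ring,
      Int.floor_add_intCast]
  obtain ⟨n, n', hn1, hn2, hn3, hn4, hn5⟩ := h5 r1 r2 ((P2 + w : ℤ) + s) (-(P2 : ℝ) + t) M (by
    rw [hM]; push_cast; ring)
  have hl : (2 : ℝ) ^ (2 * k + β + 32) ≤ 2 ^ J / 32 := by
    rw [le_div_iff₀ (by norm_num)]
    calc (2 : ℝ) ^ (2 * k + β + 32) * 32 = 2 ^ (2 * k + β + 37) := by
          rw [show 2 * k + β + 37 = (2 * k + β + 32) + 5 by ring, pow_add (2 : ℝ) (2 * k + β + 32) 5]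
          norm_num
      _ ≤ 2 ^ J := pow_le_pow_right₀ (by norm_num) (by omega)
  have hn3' := hn3
  have hn4' := hn4
  rw [abs_le] at hn3' hn4'
  have hnlo : 2 ^ J / 32 ≤ (n : ℝ) := by linarith [hn3'.1]
  have hnlo' : 2 ^ J / 32 ≤ (n' : ℝ) := by linarith [hn4'.1]
  have hnhi : (n : ℝ) ≤ 4 * 2 ^ J := by linarith [hn3'.2]
  have hnhi' : (n' : ℝ) ≤ 4 * 2 ^ J := by linarith [hn4'.2]
  -- variation of the label function
  have hvar : ∀ (x : ℝ) (m : ℕ), 2 ^ J / 32 ≤ x → 2 ^ J / 32 ≤ (m : ℝ) →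
      |(m : ℝ) - x| ≤ 2 ^ (2 * k + β + 32) →
      |L * p * Real.log m - L * p * Real.log x| < 1 / 4 := by
    intro x m hx hm hmx
    rw [← mul_sub, abs_mul, abs_of_pos (by positivity : 0 < L * p)]
    have h6 := log_close x m (2 ^ J / 32) (by positivity) hx hm
    have h7 : |(m : ℝ) - x| / (2 ^ J / 32) ≤ 2 ^ (2 * k + β + 32) / (2 ^ J / 32) :=
      div_le_div_of_nonneg_right hmx (by positivity)
    have h8 : L * 2 ^ (2 * k + β + 40 + p) = 2 ^ J := by
      rw [hL]; unfold Lk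
      rw [← pow_add]; congr 1; omega
    have hpp : (p : ℝ) < 2 ^ p := by
      have : p < 2 ^ p := Nat.lt_two_pow_self
      exact_mod_cast this
    calc L * p * |Real.log m - Real.log x| ≤ L * p * (2 ^ (2 * k + β + 32) / (2 ^ J / 32)) := by
          apply mul_le_mul_of_nonneg_left (h6.trans h7) (by positivity)
      _ = p / (2 ^ p * 8) := by
          rw [← h8, pow_add (2 : ℝ) (2 * k + β + 40) p, pow_add (2 : ℝ) (2 * k + β) 40,
            pow_add (2 : ℝ) (2 * k + β) 32]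
          field_simp
          norm_num
      _ < 1 / 4 := by
          rw [div_lt_div_iff₀ (by positivity) (by norm_num)]
          linarith
  have hlabn : lab1 p β k J τ n = P2 + w := by
    unfold lab1
    rw [← hL, ← he, ← hP1]
    have h9 := hvar x0 n (by linarith) hnlo hn3
    rw [show L * p * Real.log n + e = (L * p * Real.log x0 + e) +
      (L * p * Real.log n - L * p * Real.log x0) by ring]
    have h10 : Int.fract (L * p * Real.log x0 + e) = Int.fract (L * p * Real.log y0 + e) := by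
      rw [hphi, show L * p * Real.log y0 + w + e = (L * p * Real.log y0 + e) + (w : ℝ) by ring,
        Int.fract_add_intCast]
    exact floor_stable _ _ (by rw [h10]; exact hτ1) (by rw [h10]; exact hτ2) h9
  have hlabn' : lab1 p β k J τ n' = P2 := by
    unfold lab1
    rw [← hL, ← he]
    have h9 := hvar y0 n' (by linarith) hnlo' hn4
    rw [show L * p * Real.log n' + e = (L * p * Real.log y0 + e) +
      (L * p * Real.log n' - L * p * Real.log y0) by ring]
    exact floor_stable _ _ hτ1 hτ2 h9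
  refine ⟨n, n', hn1, hn2, ?_, ?_, ?_, ?_, ?_, ?_⟩
  · have : (2 : ℝ) ^ J ≤ 32 * n := by linarith
    exact_mod_cast this
  · exact_mod_cast hnhi
  · have : (2 : ℝ) ^ J ≤ 32 * n' := by linarith
    exact_mod_cast this
  · exact_mod_cast hnhi'
  · rw [hlabn, hlabn']; ring
  · rw [hlabn, hlabn']
    exact hn5

/-- A finite family of residue classes mod `2^(k i)` with label functions. -/
structure Fam where
  ι : Type
  fin : Fintype ι
  k : ι → ℕ
  lab : ι → ℕ → ℤ

instance (A : Fam) : Fintype A.ι := A.fin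

/-- total density of a family -/
noncomputable def Fam.wt (A : Fam) : ℝ := ∑ i : A.ι, (1 / 2 : ℝ) ^ (A.k i)

/-- label `v` is served by the pair of families, whatever residues are assigned to the classes -/
def Served (p J : ℕ) (lam D : ℝ) (A B : Fam) (v : ℤ) : Prop :=
  ∀ (ρ : A.ι → ℕ) (σ : B.ι → ℕ) (s t : ℝ) (M : ℤ) (T : ℝ),
    2 ^ J / 2 ≤ T → T ≤ 2 * 2 ^ J → lam * T ^ (p + 1) = D * (M + 1 / 2) + v + s + t →
    ∃ (i : A.ι) (j : B.ι) (n n' : ℕ), n ≡ ρ i [MOD 2 ^ A.k i] ∧ n' ≡ σ j [MOD 2 ^ B.k j] ∧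
      2 ^ J ≤ 32 * n ∧ n ≤ 4 * 2 ^ J ∧ 2 ^ J ≤ 32 * n' ∧ n' ≤ 4 * 2 ^ J ∧
      A.lab i n + B.lab j n' = v ∧ Hit p lam D (A.lab i n + s) (B.lab j n' + t) M n n'

/-- disjoint union -/
def Fam.sum (A B : Fam) : Fam where
  ι := A.ι ⊕ B.ι
  fin := inferInstance
  k := Sum.elim A.k B.k
  lab := Sum.elim A.lab B.lab

/-- indexed union -/
def Fam.sigma {N : ℕ} (F : Fin N → Fam) : Fam where
  ι := Σ i, (F i).ι
  fin := inferInstance
  k := fun x => (F x.1).k x.2
  lab := fun x => (F x.1).lab x.2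

/-- shifted copies -/
def Fam.shift {N : ℕ} (S : Fin N → ℤ) (A : Fam) : Fam where
  ι := Fin N × A.ι
  fin := inferInstance
  k := fun x => A.k x.2
  lab := fun x n => S x.1 + A.lab x.2 n

lemma Fam.wt_sum (A B : Fam) : (A.sum B).wt = A.wt + B.wt := by
  unfold Fam.wt
  exact Fintype.sum_sum_type (f := fun i : A.ι ⊕ B.ι => (1 / 2 : ℝ) ^ (Sum.elim A.k B.k i))

lemma Fam.wt_sigma {N : ℕ} (F : Fin N → Fam) : (Fam.sigma F).wt = ∑ i, (F i).wt := by
  unfold Fam.wt
  exact Fintype.sum_sigma (f := fun x : (Σ i, (F i).ι) => (1 / 2 : ℝ) ^ ((F x.1).k x.2))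

lemma Fam.wt_shift {N : ℕ} (S : Fin N → ℤ) (A : Fam) : (Fam.shift S A).wt = N * A.wt := by
  unfold Fam.wt
  have := Fintype.sum_prod_type (f := fun x : Fin N × A.ι => (1 / 2 : ℝ) ^ (A.k x.2))
  refine Eq.trans this ?_
  simp

lemma Served.left {p J : ℕ} {lam D : ℝ} {A B A' B' : Fam} {v : ℤ} (h : Served p J lam D A B v) :
    Served p J lam D (A.sum A') (B.sum B') v := by
  intro ρ σ s t M T h1 h2 h3
  obtain ⟨i, j, n, n', h⟩ := h (fun i => ρ (Sum.inl i)) (fun j => σ (Sum.inl j)) s t M T h1 h2 h3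
  exact ⟨Sum.inl i, Sum.inl j, n, n', h⟩

lemma Served.right {p J : ℕ} {lam D : ℝ} {A B A' B' : Fam} {v : ℤ}
    (h : Served p J lam D A' B' v) :
    Served p J lam D (A.sum A') (B.sum B') v := by
  intro ρ σ s t M T h1 h2 h3
  obtain ⟨i, j, n, n', h⟩ := h (fun i => ρ (Sum.inr i)) (fun j => σ (Sum.inr j)) s t M T h1 h2 h3
  exact ⟨Sum.inr i, Sum.inr j, n, n', h⟩

lemma Served.sig {p J : ℕ} {lam D : ℝ} {N : ℕ} {F G : Fin N → Fam} {v : ℤ} (a : Fin N)
    (h : Served p J lam D (F a) (G a) v) :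
    Served p J lam D (Fam.sigma F) (Fam.sigma G) v := by
  intro ρ σ s t M T h1 h2 h3
  obtain ⟨i, j, n, n', h⟩ := h (fun i => ρ ⟨a, i⟩) (fun j => σ ⟨a, j⟩) s t M T h1 h2 h3
  exact ⟨⟨a, i⟩, ⟨a, j⟩, n, n', h⟩

lemma Served.shift {p J : ℕ} {lam D : ℝ} {N N' : ℕ} {S : Fin N → ℤ} {S' : Fin N' → ℤ}
    {A B : Fam} {v : ℤ} (a : Fin N) (b : Fin N')
    (h : Served p J lam D A B (v - S a - S' b)) :
    Served p J lam D (Fam.shift S A) (Fam.shift S' B) v := by
  intro ρ σ s t M T h1 h2 h3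
  obtain ⟨i, j, n, n', h4, h5, h6, h7, h8, h9, h10, h11⟩ :=
    h (fun i => ρ (a, i)) (fun j => σ (b, j)) (s + S a) (t + S' b) M T h1 h2
      (by rw [h3]; push_cast; ring)
  refine ⟨(a, i), (b, j), n, n', h4, h5, h6, h7, h8, h9, ?_, ?_⟩
  · show (S a + A.lab i n) + (S' b + B.lab j n') = v
    linarith
  · show Hit p lam D (((S a + A.lab i n : ℤ) : ℝ) + s) (((S' b + B.lab j n' : ℤ) : ℝ) + t) M n n'
    have e1 : (((S a + A.lab i n : ℤ) : ℝ) + s) = (A.lab i n : ℝ) + (s + S a) := by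
      push_cast; ring
    have e2 : (((S' b + B.lab j n' : ℤ) : ℝ) + t) = (B.lab j n' : ℝ) + (t + S' b) := by
      push_cast; ring
    rw [e1, e2]
    exact h11

/-- base families -/
noncomputable def baseA (p β k J : ℕ) {N : ℕ} (offs : Fin N → ℤ) : Fam where
  ι := Bool × Fin N
  fin := inferInstance
  k := fun _ => k
  lab := fun x n => lab1 p β k J x.1 n - offs x.2

noncomputable def baseB (p β k J : ℕ) : Fam where
  ι := Bool
  fin := inferInstance
  k := fun _ => k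
  lab := fun x n => - lab1 p β k J x n

lemma wt_baseA (p β k J : ℕ) {N : ℕ} (offs : Fin N → ℤ) :
    (baseA p β k J offs).wt = 2 * N * (1 / 2 : ℝ) ^ k := by
  unfold Fam.wt
  have : (∑ _i : Bool × Fin N, (1 / 2 : ℝ) ^ k) = 2 * N * (1 / 2 : ℝ) ^ k := by
    rw [Finset.sum_const, Finset.card_univ, Fintype.card_prod, Fintype.card_bool, Fintype.card_fin,
      nsmul_eq_mul]
    push_cast
    ring
  exact this

lemma wt_baseB (p β k J : ℕ) : (baseB p β k J).wt = 2 * (1 / 2 : ℝ) ^ k := by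
  unfold Fam.wt
  have : (∑ _i : Bool, (1 / 2 : ℝ) ^ k) = 2 * (1 / 2 : ℝ) ^ k := by
    rw [Finset.sum_const, Finset.card_univ, Fintype.card_bool, nsmul_eq_mul]
    push_cast
    ring
  exact this

lemma served_base (p β k J : ℕ) (hp : 1 ≤ p) (hJ : 2 * p + 3 * β + 4 * k + 70 ≤ J)
    (lam D : ℝ) (hlam : 0 < lam) (hD : 0 < D)
    (hcond : 504 * (p + 1) * lam * (2 * 2 ^ J) ^ p ≤ 2 ^ β * D)
    {N : ℕ} (offs : Fin N → ℤ) (i : Fin N) (v : ℤ) (hw0 : 0 ≤ v + offs i)
    (hw2 : ((v + offs i : ℤ) : ℝ) ≤ 2 * Lk p β k J)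
    (hg : Good β k (Real.exp (((v + offs i : ℤ) : ℝ) / Lk p β k J))) :
    Served p J lam D (baseA p β k J offs) (baseB p β k J) v := by
  intro ρ σ s t M T h1 h2 h3
  obtain ⟨τ, hτ⟩ := node_serve p β k J hp hJ lam D hlam hD hcond (v + offs i) hw0 hw2 hg T h1 h2
  obtain ⟨n, n', h4, h5, h6, h7, h8, h9, h10, h11⟩ := hτ (ρ (τ, i)) (σ τ) (s - offs i) t M
    (by rw [h3]; push_cast; ring)
  refine ⟨(τ, i), τ, n, n', h4, h5, h6, h7, h8, h9, ?_, ?_⟩
  · show (lab1 p β k J τ n - offs i) + (-lab1 p β k J τ n') = v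
    linarith
  · show Hit p lam D (((lab1 p β k J τ n - offs i : ℤ) : ℝ) + s)
      (((-lab1 p β k J τ n' : ℤ) : ℝ) + t) M n n'
    have e1 : (((lab1 p β k J τ n - offs i : ℤ) : ℝ) + s) =
        (lab1 p β k J τ n : ℝ) + (s - offs i) := by push_cast; ring
    have e2 : (((-lab1 p β k J τ n' : ℤ) : ℝ) + t) = -(lab1 p β k J τ n' : ℝ) + t := by
      push_cast; ring
    rw [e1, e2]
    exact h11

end Pool.Agent.helper63.Cas
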