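import Mathlib
import Pool.Agent.helper63.Cas.Rec

set_option autoImplicit false

/-!
The induction: all labels can be served with small total density.
-/

namespace Pool.Agent.helper63.Cas

/-- depth `d`, spacing `2^k`: all labels served -/
def TT (p β d k : ℕ) : Prop :=
  ∃ J0 : ℕ, ∀ J ≥ J0, ∀ lam D : ℝ, 0 < lam → 0 < D →
    504 * (p + 1) * lam * (2 * 2 ^ J) ^ p ≤ 2 ^ β * D →
    ∃ A B : Fam, (∀ i, k ≤ A.k i) ∧ (∀ i, k ≤ B.k i) ∧
      A.wt ≤ (4 + 8 * (k + β + 10) / 2 ^ d) / 2 ^ k ∧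
      B.wt ≤ (4 + 8 * (k + β + 10) / 2 ^ d) / 2 ^ k ∧
      ∀ v : ℤ, 0 ≤ v → (v : ℝ) ≤ Lk p β k J → Served p J lam D A B v

lemma TT_zero (p β k : ℕ) (hp : 1 ≤ p) : TT p β 0 k := by
  refine ⟨2 * p + 3 * β + 4 * k + 70, ?_⟩
  intro J hJ lam D hlam hD hcond
  set L := Lk p β k J with hL
  have hL0 : 0 < L := Lk_pos p β k J
  let offs : Fin (k + β + 2) → ℤ := fun i =>
    if (i : ℕ) = 0 then 0 else 2 ^ (J - (3 * k + 2 * β + ((i : ℕ) - 1) + 45 + p))
  refine ⟨baseA p β k J offs, baseB p β k J, fun _ => le_refl _, fun _ => le_refl _, ?_, ?_, ?_⟩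
  · rw [wt_baseA, le_div_iff₀ (by positivity)]
    have : (1 / 2 : ℝ) ^ k * 2 ^ k = 1 := by
      rw [← mul_pow]; norm_num
    push_cast
    calc 2 * ((k : ℝ) + β + 2) * (1 / 2) ^ k * 2 ^ k = 2 * (k + β + 2) * ((1 / 2) ^ k * 2 ^ k) := by
          ring
      _ = 2 * (k + β + 2) := by rw [this, mul_one]
      _ ≤ _ := by
          have : (0 : ℝ) ≤ k := by positivity
          have : (0 : ℝ) ≤ β := by positivity
          simp only [pow_zero, div_one]
          linarith
  · rw [wt_baseB, le_div_iff₀ (by positivity)]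
    have : (1 / 2 : ℝ) ^ k * 2 ^ k = 1 := by
      rw [← mul_pow]; norm_num
    calc 2 * (1 / 2 : ℝ) ^ k * 2 ^ k = 2 * ((1 / 2) ^ k * 2 ^ k) := by ring
      _ = 2 := by rw [this, mul_one]
      _ ≤ _ := by
          have : (0 : ℝ) ≤ k := by positivity
          have : (0 : ℝ) ≤ β := by positivity
          simp only [pow_zero, div_one]
          linarith
  · intro v hv0 hvL
    have hvr : (0 : ℝ) ≤ v := by exact_mod_cast hv0
    have hu0 : 0 ≤ (v : ℝ) / L := by positivity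
    have hu1 : (v : ℝ) / L ≤ 1 := by rw [div_le_one hL0]; exact hvL
    by_cases hg : Good β k (Real.exp ((v : ℝ) / L))
    · refine served_base p β k J hp hJ lam D hlam hD hcond offs ⟨0, by omega⟩ v ?_ ?_ ?_
      · simp only [offs, if_true]; omega
      · simp only [offs, if_true]
        push_cast
        linarith
      · simp only [offs, if_true]
        simpa using hg
    · obtain ⟨i, hi, hgi⟩ := escape β k _ hu0 hu1 hg
      have hoff : offs ⟨i + 1, by omega⟩ = 2 ^ (J - (3 * k + 2 * β + i + 45 + p)) := by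
        simp only [offs]
        rw [if_neg (by omega), Nat.add_sub_cancel]
      have hc : (2 : ℝ) ^ (J - (3 * k + 2 * β + i + 45 + p)) = L * (1 / 2 ^ (k + β + i + 5)) := by
        rw [hL]; unfold Lk
        rw [mul_one_div, eq_div_iff (by positivity), ← pow_add]
        congr 1
        omega
      refine served_base p β k J hp hJ lam D hlam hD hcond offs ⟨i + 1, by omega⟩ v ?_ ?_ ?_
      · rw [hoff]; positivity
      · rw [hoff]
        push_cast
        rw [hc, ← hL]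
        have h1 : (1 : ℝ) / 2 ^ (k + β + i + 5) ≤ 1 := by
          rw [div_le_one (by positivity)]
          exact one_le_pow₀ (by norm_num)
        have h2 : L * (1 / 2 ^ (k + β + i + 5)) ≤ L * 1 := mul_le_mul_of_nonneg_left h1 hL0.le
        linarith
      · rw [hoff]
        push_cast
        rw [hc, ← hL, add_div, mul_div_assoc, mul_comm L, div_mul_cancel₀ _ hL0.ne']
        exact hgi

/-- child spacing exponent -/
def kc (β k i : ℕ) : ℕ := 2 * k + β + 10 - (k + β - i + 1) / 2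

lemma kc_ge (β k i : ℕ) : k ≤ kc β k i := by unfold kc; omega

lemma kc_eq (β k i : ℕ) (hi : i ≤ k + β) : kc β k i = i + (k + 10 + (k + β - i) / 2) := by
  unfold kc; omega

lemma kc_two (β k i : ℕ) (hi : i ≤ k + β) : 2 * kc β k i ≤ 3 * k + i + β + 20 := by
  unfold kc; omega

lemma kc_le (β k i : ℕ) : kc β k i + β + 10 ≤ 2 * (k + β + 10) := by unfold kc; omega

lemma half_sum (n : ℕ) : ∑ j ∈ Finset.range n, (1 / 2 : ℝ) ^ (j / 2) ≤ 4 := by
  have h1 : ∀ m : ℕ, ∑ j ∈ Finset.range (2 * m), (1 / 2 : ℝ) ^ (j / 2) = 4 - 4 * (1 / 2) ^ m := by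
    intro m
    induction m with
    | zero => simp
    | succ m ih =>
      rw [show 2 * (m + 1) = 2 * m + 1 + 1 by ring, Finset.sum_range_succ, Finset.sum_range_succ, ih,
        show 2 * m / 2 = m by omega, show (2 * m + 1) / 2 = m by omega]
      ring
  calc ∑ j ∈ Finset.range n, (1 / 2 : ℝ) ^ (j / 2) ≤
      ∑ j ∈ Finset.range (2 * n), (1 / 2 : ℝ) ^ (j / 2) := by
        apply Finset.sum_le_sum_of_subset_of_nonneg
        · intro x hx
          simp only [Finset.mem_range] at hx ⊢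
          omega
        · intros; positivity
    _ = 4 - 4 * (1 / 2) ^ n := h1 n
    _ ≤ 4 := by
        have : (0 : ℝ) ≤ 4 * (1 / 2) ^ n := by positivity
        linarith

/-- weight computation for the recursion -/
lemma wt_rec (β k d : ℕ) (W : Fin (k + β + 1) → ℝ)
    (hW : ∀ i, W i ≤ (4 + 8 * ((kc β k i : ℝ) + β + 10) / 2 ^ d) / 2 ^ (kc β k i)) :
    2 * (1 / 2 : ℝ) ^ k + ∑ i : Fin (k + β + 1), 7 * 2 ^ (i : ℕ) * W i ≤
      (4 + 8 * (k + β + 10) / 2 ^ (d + 1)) / 2 ^ k := by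
  set Q : ℝ := (k : ℝ) + β + 10 with hQ
  have hQ0 : 0 ≤ Q := by positivity
  set c : ℝ := 7 * (4 + 16 * Q / 2 ^ d) / (2 ^ k * 1024) with hc
  have hc0 : 0 ≤ c := by positivity
  have h1 : ∀ i : Fin (k + β + 1), 7 * 2 ^ (i : ℕ) * W i ≤ c * (1 / 2) ^ ((k + β - i) / 2) := by
    intro i
    have hi : (i : ℕ) ≤ k + β := by omega
    have h2 : ((kc β k i : ℝ) + β + 10) ≤ 2 * Q := by
      have := kc_le β k i
      have h3 : ((kc β k i + β + 10 : ℕ) : ℝ) ≤ ((2 * (k + β + 10) : ℕ) : ℝ) := by exact_mod_cast this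
      push_cast at h3
      rw [hQ]; exact h3
    have h4 : W i ≤ (4 + 16 * Q / 2 ^ d) / 2 ^ (kc β k i) := by
      refine (hW i).trans ?_
      apply div_le_div_of_nonneg_right _ (by positivity)
      have : 8 * ((kc β k i : ℝ) + β + 10) / 2 ^ d ≤ 16 * Q / 2 ^ d := by
        apply div_le_div_of_nonneg_right _ (by positivity)
        linarith
      linarith
    calc 7 * 2 ^ (i : ℕ) * W i ≤ 7 * 2 ^ (i : ℕ) * ((4 + 16 * Q / 2 ^ d) / 2 ^ (kc β k i)) :=
          mul_le_mul_of_nonneg_left h4 (by positivity)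
      _ = c * (1 / 2) ^ ((k + β - i) / 2) := by
          rw [kc_eq β k i hi, pow_add (2 : ℝ) (i : ℕ), pow_add (2 : ℝ) (k + 10),
            pow_add (2 : ℝ) k 10, hc, one_div, inv_pow]
          field_simp
          norm_num
  have h2 : ∑ i : Fin (k + β + 1), 7 * 2 ^ (i : ℕ) * W i ≤ c * 4 := by
    calc ∑ i : Fin (k + β + 1), 7 * 2 ^ (i : ℕ) * W i
        ≤ ∑ i : Fin (k + β + 1), c * (1 / 2) ^ ((k + β - i) / 2) :=
          Finset.sum_le_sum (fun i _ => h1 i)
      _ = c * ∑ i : Fin (k + β + 1), (1 / 2) ^ ((k + β - i) / 2) := by rw [Finset.mul_sum]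
      _ = c * ∑ i ∈ Finset.range (k + β + 1), (1 / 2 : ℝ) ^ ((k + β - i) / 2) := by
          rw [Finset.sum_range]
      _ = c * ∑ i ∈ Finset.range (k + β + 1), (1 / 2 : ℝ) ^ (i / 2) := by
          congr 1
          have := Finset.sum_range_reflect (fun i => (1 / 2 : ℝ) ^ (i / 2)) (k + β + 1)
          rw [← this]
          apply Finset.sum_congr rfl
          intro i _
          congr 2
      _ ≤ c * 4 := mul_le_mul_of_nonneg_left (half_sum _) hc0
  have h3 : (2 : ℝ) * (1 / 2) ^ k = 2 / 2 ^ k := by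
    rw [one_div, inv_pow]; ring
  rw [h3]
  calc 2 / 2 ^ k + ∑ i : Fin (k + β + 1), 7 * 2 ^ (i : ℕ) * W i ≤ 2 / 2 ^ k + c * 4 := by linarith
    _ = (2 + 28 * (4 + 16 * Q / 2 ^ d) / 1024) / 2 ^ k := by
        rw [hc]; field_simp; ring
    _ ≤ (4 + 8 * Q / 2 ^ (d + 1)) / 2 ^ k := by
        apply div_le_div_of_nonneg_right _ (by positivity)
        have h4 : 8 * Q / 2 ^ (d + 1) = 4 * (Q / 2 ^ d) := by
          rw [pow_succ]; field_simp; ring
        have h5 : 16 * Q / 2 ^ d = 16 * (Q / 2 ^ d) := by ring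
        have h6 : 0 ≤ Q / 2 ^ d := by positivity
        rw [h4, h5]
        linarith

lemma TT_succ (p β d : ℕ) (hp : 1 ≤ p) (h : ∀ k, TT p β d k) (k : ℕ) : TT p β (d + 1) k := by
  choose J0 hJ0 using fun i : Fin (k + β + 1) => h (kc β k i)
  refine ⟨max (2 * p + 3 * β + 4 * k + 80) (Finset.univ.sup J0), ?_⟩
  intro J hJ lam D hlam hD hcond
  have hJ1 : 2 * p + 3 * β + 4 * k + 80 ≤ J := (le_max_left _ _).trans hJ
  have hJ2 : ∀ i, J0 i ≤ J := fun i =>
    (Finset.le_sup (Finset.mem_univ i)).trans ((le_max_right _ _).trans hJ)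
  choose A B hA hB hwA hwB hS using fun i => hJ0 i J (hJ2 i) lam D hlam hD hcond
  set L := Lk p β k J with hL
  have hL0 : 0 < L := Lk_pos p β k J
  let c0 : Fin (k + β + 1) → ℤ := fun i => 2 ^ (J - (3 * k + 2 * β + 62 + p + i)) + 1
  let Sa : (i : Fin (k + β + 1)) → Fin (7 * 2 ^ (i : ℕ)) → ℤ := fun i a =>
    ⌊L * Real.log ((a : ℕ) : ℝ)⌋ - c0 i
  let Sb : (i : Fin (k + β + 1)) → Fin (2 ^ (i : ℕ)) → ℤ := fun i b =>
    - ⌊L * Real.log ((2 ^ (i : ℕ) + (b : ℕ) : ℕ) : ℝ)⌋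
  refine ⟨(baseA p β k J (fun _ : Fin 1 => 0)).sum (Fam.sigma fun i => Fam.shift (Sa i) (A i)),
    (baseB p β k J).sum (Fam.sigma fun i => Fam.shift (Sb i) (B i)), ?_, ?_, ?_, ?_, ?_⟩
  · rintro (i | ⟨i, a, j⟩)
    · exact le_refl k
    · exact (kc_ge β k i).trans (hA i j)
  · rintro (i | ⟨i, a, j⟩)
    · exact le_refl k
    · exact (kc_ge β k i).trans (hB i j)
  · rw [Fam.wt_sum, Fam.wt_sigma, wt_baseA]
    simp only [Fam.wt_shift]
    have := wt_rec β k d (fun i => (A i).wt) hwA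
    push_cast at this ⊢
    simpa using this
  · rw [Fam.wt_sum, Fam.wt_sigma, wt_baseB]
    simp only [Fam.wt_shift]
    have := wt_rec β k d (fun i => (B i).wt) hwB
    refine le_trans ?_ this
    have h1 : ∀ i : Fin (k + β + 1), ((2 ^ (i : ℕ) : ℕ) : ℝ) * (B i).wt ≤
        7 * 2 ^ (i : ℕ) * (B i).wt := by
      intro i
      have h2 : 0 ≤ (B i).wt := by
        unfold Fam.wt
        exact Finset.sum_nonneg (fun _ _ => by positivity)
      push_cast
      apply mul_le_mul_of_nonneg_right _ h2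
      have : (0 : ℝ) ≤ 2 ^ (i : ℕ) := by positivity
      linarith
    have := Finset.sum_le_sum (fun i (_ : i ∈ Finset.univ) => h1 i)
    linarith
  · intro v hv0 hvL
    have hvr : (0 : ℝ) ≤ v := by exact_mod_cast hv0
    have hu0 : 0 ≤ (v : ℝ) / L := by positivity
    have hu1 : (v : ℝ) / L ≤ 1 := by rw [div_le_one hL0]; exact hvL
    by_cases hg : Good β k (Real.exp ((v : ℝ) / L))
    · apply Served.left
      refine served_base p β k J hp (by omega) lam D hlam hD hcond (fun _ : Fin 1 => 0) 0 v ?_ ?_ ?_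
      · simpa using hv0
      · push_cast
        linarith
      · simpa using hg
    · obtain ⟨i, hi, a, b, hb1, hb2, ha1, ha2, hab⟩ := bad_near β k _ hu0 hu1 hg
      have hbl : b - 2 ^ i < 2 ^ i := by omega
      have hil : i < k + β + 1 := by omega
      apply Served.right
      apply Served.sig ⟨i, hil⟩
      apply Served.shift (⟨a, ha2⟩ : Fin (7 * 2 ^ i)) (⟨b - 2 ^ i, hbl⟩ : Fin (2 ^ i))
      have hbb : 2 ^ i + (b - 2 ^ i) = b := by omega
      set x : ℤ := 2 ^ (J - (3 * k + 2 * β + 62 + p + i)) with hx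
      have hxr : (x : ℝ) = L * (2 * (1 / 2 ^ (23 + k + β)) / 2 ^ i) := by
        rw [hx, hL]; unfold Lk
        push_cast
        have e1 : (2 : ℝ) ^ (J - (2 * k + β + 40 + p)) =
            2 ^ (J - (3 * k + 2 * β + 62 + p + i)) * 2 ^ (22 + k + β + i) := by
          rw [← pow_add]; congr 1; omega
        rw [e1, pow_add (2 : ℝ) (22 + k + β) i, show 23 + k + β = (22 + k + β) + 1 by ring,
          pow_succ (2 : ℝ) (22 + k + β)]
        field_simp
      have hx1 : 1 ≤ x := by rw [hx]; exact one_le_pow₀ (by norm_num)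
      have hv' : v - Sa ⟨i, hil⟩ ⟨a, ha2⟩ - Sb ⟨i, hil⟩ ⟨b - 2 ^ i, hbl⟩ =
          v - ⌊L * Real.log (a : ℝ)⌋ + ⌊L * Real.log (b : ℝ)⌋ + (x + 1) := by
        simp only [Sa, Sb, c0]
        rw [hbb]
        ring
      rw [hv']
      have hf1 := Int.floor_le (L * Real.log (a : ℝ))
      have hf2 := Int.lt_floor_add_one (L * Real.log (a : ℝ))
      have hf3 := Int.floor_le (L * Real.log (b : ℝ))
      have hf4 := Int.lt_floor_add_one (L * Real.log (b : ℝ))
      have hmul : |(v : ℝ) - (L * Real.log a - L * Real.log b)| ≤ x := by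
        have : (v : ℝ) - (L * Real.log a - L * Real.log b) =
            L * ((v : ℝ) / L - (Real.log a - Real.log b)) := by
          field_simp
        rw [this, abs_mul, abs_of_pos hL0, hxr]
        exact mul_le_mul_of_nonneg_left hab hL0.le
      rw [abs_le] at hmul
      apply hS ⟨i, hil⟩
      · -- nonneg
        have : (0 : ℝ) < ((v - ⌊L * Real.log (a : ℝ)⌋ + ⌊L * Real.log (b : ℝ)⌋ + (x + 1) : ℤ) : ℝ) := by
          push_cast
          linarith [hmul.1]
        have : 0 < v - ⌊L * Real.log (a : ℝ)⌋ + ⌊L * Real.log (b : ℝ)⌋ + (x + 1) := by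
          exact_mod_cast this
        exact this.le
      · have h1 : ((v - ⌊L * Real.log (a : ℝ)⌋ + ⌊L * Real.log (b : ℝ)⌋ + (x + 1) : ℤ) : ℝ) ≤ 4 * x := by
          have h2 : ((v - ⌊L * Real.log (a : ℝ)⌋ + ⌊L * Real.log (b : ℝ)⌋ + (x + 1) : ℤ) : ℝ) <
              2 * x + 2 := by
            push_cast
            linarith [hmul.2]
          have h3 : (1 : ℝ) ≤ x := by exact_mod_cast hx1
          linarith
        refine h1.trans ?_
        show 4 * (x : ℝ) ≤ Lk p β (kc β k i) J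
        have h2 := kc_two β k i hi
        unfold Lk
        rw [hx]
        push_cast
        calc (4 : ℝ) * 2 ^ (J - (3 * k + 2 * β + 62 + p + i)) =
            2 ^ (J - (3 * k + 2 * β + 62 + p + i) + 2) := by
              rw [pow_add]; norm_num; ring
          _ ≤ 2 ^ (J - (2 * kc β k i + β + 40 + p)) :=
              pow_le_pow_right₀ (by norm_num) (by omega)

lemma TT_all (p β : ℕ) (hp : 1 ≤ p) (d : ℕ) : ∀ k, TT p β d k := by
  induction d with
  | zero => exact fun k => TT_zero p β k hp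
  | succ d ih => exact TT_succ p β d hp ih

/-- final form: density at most `5 / 2^k` -/
lemma TT_final (p β k : ℕ) (hp : 1 ≤ p) :
    ∃ J0 : ℕ, ∀ J ≥ J0, ∀ lam D : ℝ, 0 < lam → 0 < D →
      504 * (p + 1) * lam * (2 * 2 ^ J) ^ p ≤ 2 ^ β * D →
      ∃ A B : Fam, (∀ i, k ≤ A.k i) ∧ (∀ i, k ≤ B.k i) ∧
        A.wt ≤ 5 / 2 ^ k ∧ B.wt ≤ 5 / 2 ^ k ∧
        ∀ v : ℤ, 0 ≤ v → (v : ℝ) ≤ Lk p β k J → Served p J lam D A B v := by
  obtain ⟨d, hd⟩ := pow_unbounded_of_one_lt (8 * ((k : ℝ) + β + 10)) (by norm_num : (1 : ℝ) < 2)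
  obtain ⟨J0, h⟩ := TT_all p β hp d k
  refine ⟨J0, fun J hJ lam D hlam hD hcond => ?_⟩
  obtain ⟨A, B, h1, h2, h3, h4, h5⟩ := h J hJ lam D hlam hD hcond
  have h6 : (4 + 8 * ((k : ℝ) + β + 10) / 2 ^ d) / 2 ^ k ≤ 5 / 2 ^ k := by
    apply div_le_div_of_nonneg_right _ (by positivity)
    have : 8 * ((k : ℝ) + β + 10) / 2 ^ d ≤ 1 := by
      rw [div_le_one (by positivity)]; exact hd.le
    linarith
  exact ⟨A, B, h1, h2, h3.trans h6, h4.trans h6, h5⟩

end Pool.Agent.helper63.Cas
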