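import Mathlib
import Pool.Agent.helper63.Cas.Tree
import Pool.Agent.helper63.Cas.Alloc

set_option autoImplicit false

/-!
Representation of all integers at one scale.
-/

namespace Pool.Agent.helper63.Cas

lemma digits_sum (R q x : ℕ) :
    x % R ^ q = ∑ e : Fin q, (x / R ^ (e : ℕ) % R) * R ^ (e : ℕ) := by
  rw [← Finset.sum_range (fun e => (x / R ^ e % R) * R ^ e)]
  induction q with
  | zero => simp [Nat.mod_one]
  | succ q ih =>
    rw [Finset.sum_range_succ, ← ih, Nat.mod_pow_succ]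
    ring

/-- rounding to a residue class modulo `D` -/
lemma round_err (D : ℝ) (hD : 0 < D) (y l ω : ℝ) (h0 : 0 ≤ ω) (h1 : ω ≤ 1) :
    |(l + D * ⌊(y - l) / D + ω⌋) - y| ≤ D := by
  have h2 := Int.floor_le ((y - l) / D + ω)
  have h3 := Int.lt_floor_add_one ((y - l) / D + ω)
  have h4 : D * ((y - l) / D) = y - l := by field_simp
  have h5 : D * (⌊(y - l) / D + ω⌋ : ℝ) ≤ D * ((y - l) / D + ω) := mul_le_mul_of_nonneg_left h2 hD.le
  have h6 : D * ((y - l) / D + ω) ≤ D * (⌊(y - l) / D + ω⌋ + 1) := mul_le_mul_of_nonneg_left h3.le hD.le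
  rw [mul_add, h4] at h5 h6
  have h7 : D * ω ≤ D * 1 := mul_le_mul_of_nonneg_left h1 hD.le
  have h8 : 0 ≤ D * ω := by positivity
  rw [abs_le]
  constructor <;> linarith

lemma scale (q β : ℕ) (lam : ℝ) (hlam : 0 < lam)
    (hl0 : 504 * (((q + 1 : ℕ) : ℝ) + 1) * lam * 2 ^ (q + 1) * 2 ^ (57 + q + (q + 8) * q) ≤ 1) :
    ∃ J1 : ℕ, ∀ J ≥ J1, ∃ g : ℕ → ℤ,
      (∀ n : ℕ, |(g n : ℝ) - lam * (n : ℝ) ^ (q + 2)| ≤ 2 ^ (J * (q + 1)) / 2 ^ β) ∧
      ∀ N : ℕ, lam * 2 ^ (J * (q + 2)) ≤ 2 * N → 2 * (N : ℝ) < lam * 2 ^ ((J + 1) * (q + 2)) →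
        ∃ f : Fin (q + 2) → ℕ, (∀ i, f i % 8 = J % 8 ∧ 2 ^ J ≤ 32 * f i ∧ f i < 8 * 2 ^ J) ∧
          ∑ i, g (f i) = N := by
  obtain ⟨J0, hJ0⟩ := TT_final (q + 1) β 8 (by omega)
  obtain ⟨J2, hJ2⟩ := pow_unbounded_of_one_lt (16 * ((q : ℝ) + 2) / lam) (by norm_num : (1 : ℝ) < 2)
  refine ⟨max J0 (max J2 (100 + β + q + (q + 8) * q)), ?_⟩
  intro J hJ
  have hJa : J0 ≤ J := (le_max_left _ _).trans hJ
  have hJb : J2 ≤ J := (le_max_left _ _).trans ((le_max_right _ _).trans hJ)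
  have hJc : 100 + β + q + (q + 8) * q ≤ J := (le_max_right _ _).trans ((le_max_right _ _).trans hJ)
  have hJc' : 100 + β + q ≤ J := by
    have : 0 ≤ (q + 8) * q := by positivity
    omega
  set D1 : ℕ := 2 ^ (J - (57 + β + q)) with hD1
  set Re : ℕ := 2 ^ (J - (q + 8)) with hRe
  set D : ℕ := D1 * Re ^ q with hDdef
  have hD10 : 0 < D1 := by positivity
  have hRe0 : 0 < Re := by positivity
  have hD0 : 0 < D := by positivity
  have hDr0 : (0 : ℝ) < (D : ℝ) := by exact_mod_cast hD0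
  have hD1r : (1 : ℝ) ≤ (D : ℝ) := by exact_mod_cast hD0
  -- size of D
  have hDid : (D : ℝ) * (2 ^ β * 2 ^ (57 + q + (q + 8) * q)) = 2 ^ (J * (q + 1)) := by
    have h1 : (Re : ℝ) ^ q * 2 ^ ((q + 8) * q) = 2 ^ (J * q) := by
      rw [hRe]; push_cast
      rw [pow_mul (2 : ℝ) (q + 8) q, ← mul_pow, ← pow_add, show J - (q + 8) + (q + 8) = J by omega,
        ← pow_mul]
    have h2 : (D1 : ℝ) * 2 ^ (57 + β + q) = 2 ^ J := by
      rw [hD1]; push_cast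
      rw [← pow_add]; congr 1; omega
    have h3 : (2 : ℝ) ^ β * 2 ^ (57 + q + (q + 8) * q) = 2 ^ (57 + β + q) * 2 ^ ((q + 8) * q) := by
      rw [← pow_add, ← pow_add]; congr 1; ring
    rw [h3, hDdef]
    push_cast
    calc (D1 : ℝ) * (Re : ℝ) ^ q * (2 ^ (57 + β + q) * 2 ^ ((q + 8) * q)) =
        ((D1 : ℝ) * 2 ^ (57 + β + q)) * ((Re : ℝ) ^ q * 2 ^ ((q + 8) * q)) := by ring
      _ = 2 ^ J * 2 ^ (J * q) := by rw [h1, h2]
      _ = 2 ^ (J * (q + 1)) := by rw [← pow_add]; congr 1; ring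
  set X : ℝ := 2 ^ (J * (q + 1)) with hX
  have hX0 : 0 < X := by positivity
  have hDX : (D : ℝ) ≤ X / 2 ^ β := by
    rw [le_div_iff₀ (by positivity), ← hDid]
    have h1 : (1 : ℝ) ≤ 2 ^ (57 + q + (q + 8) * q) := one_le_pow₀ (by norm_num)
    calc (D : ℝ) * 2 ^ β = (D : ℝ) * (2 ^ β * 1) := by ring
      _ ≤ (D : ℝ) * (2 ^ β * 2 ^ (57 + q + (q + 8) * q)) := by gcongr
  have hDX' : (D : ℝ) ≤ X := hDX.trans (div_le_self hX0.le (one_le_pow₀ (by norm_num)))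
  -- the families
  obtain ⟨A, B, hkA, hkB, hwA, hwB, hserve⟩ := hJ0 J hJa lam D hlam hDr0 (by
    have e1 : ((2 : ℝ) * 2 ^ J) ^ (q + 1) = 2 ^ (q + 1) * X := by
      rw [mul_pow, ← pow_mul]
    rw [e1]
    have e2 : (2 : ℝ) ^ β * D * 2 ^ (57 + q + (q + 8) * q) = X := by
      rw [← hDid]; ring
    have e3 : (0 : ℝ) < 2 ^ (57 + q + (q + 8) * q) := by positivity
    have e4 : 504 * (((q + 1 : ℕ) : ℝ) + 1) * lam * (2 ^ (q + 1) * X) * 2 ^ (57 + q + (q + 8) * q) ≤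
        2 ^ β * D * 2 ^ (57 + q + (q + 8) * q) := by
      rw [e2]
      calc 504 * (((q + 1 : ℕ) : ℝ) + 1) * lam * (2 ^ (q + 1) * X) * 2 ^ (57 + q + (q + 8) * q) =
          (504 * (((q + 1 : ℕ) : ℝ) + 1) * lam * 2 ^ (q + 1) * 2 ^ (57 + q + (q + 8) * q)) * X := by
            ring
        _ ≤ 1 * X := mul_le_mul_of_nonneg_right hl0 hX0.le
        _ = X := one_mul X
    exact le_of_mul_le_mul_right e4 e3)
  -- allocation of residues
  let kk : A.ι ⊕ (B.ι ⊕ Fin q) → ℕ := Sum.elim A.k (Sum.elim B.k (fun _ => q + 5))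
  obtain ⟨ρ, hρ8, hρd⟩ := alloc8 kk (by
    rintro (i | i | i)
    · show 3 ≤ A.k i
      have := hkA i
      omega
    · show 3 ≤ B.k i
      have := hkB i
      omega
    · show 3 ≤ q + 5
      omega) (by
    rw [Fintype.sum_sum_type, Fintype.sum_sum_type]
    have h1 : ∑ a : A.ι, (1 / 2 : ℝ) ^ kk (Sum.inl a) = A.wt := rfl
    have h2 : ∑ a : B.ι, (1 / 2 : ℝ) ^ kk (Sum.inr (Sum.inl a)) = B.wt := rfl
    have h3 : ∑ a : Fin q, (1 / 2 : ℝ) ^ kk (Sum.inr (Sum.inr a)) ≤ 1 / 32 := by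
      have h4 : ∑ a : Fin q, (1 / 2 : ℝ) ^ kk (Sum.inr (Sum.inr a)) = q * (1 / 2) ^ (q + 5) := by
        show ∑ _a : Fin q, (1 / 2 : ℝ) ^ (q + 5) = q * (1 / 2) ^ (q + 5)
        simp
      rw [h4, one_div, inv_pow, ← div_eq_mul_inv, div_le_iff₀ (by positivity), pow_add]
      have h5 : (q : ℝ) ≤ 2 ^ q := by
        have : q < 2 ^ q := Nat.lt_two_pow_self
        exact_mod_cast this.le
      norm_num
      linarith
    rw [h1, h2]
    norm_num at hwA hwB ⊢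
    linarith) J
  let lb : A.ι ⊕ (B.ι ⊕ Fin q) → ℕ → ℤ := Sum.elim A.lab (Sum.elim B.lab
    (fun e n => ((n / 2 ^ (q + 5) % Re) * D1 * Re ^ (e : ℕ) : ℕ)))
  let om : A.ι ⊕ (B.ι ⊕ Fin q) → ℕ → ℝ := Sum.elim (fun _ n => if n % 3 = 1 then 1 / 2 else 0)
    (Sum.elim (fun _ n => if n % 3 = 0 then 1 / 2 else 0) (fun _ _ => 0))
  have hom : ∀ x n, 0 ≤ om x n ∧ om x n ≤ 1 := by
    rintro (i | i | i) n
    · show 0 ≤ (if n % 3 = 1 then (1 / 2 : ℝ) else 0) ∧ (if n % 3 = 1 then (1 / 2 : ℝ) else 0) ≤ 1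
      split_ifs <;> norm_num
    · show 0 ≤ (if n % 3 = 0 then (1 / 2 : ℝ) else 0) ∧ (if n % 3 = 0 then (1 / 2 : ℝ) else 0) ≤ 1
      split_ifs <;> norm_num
    · show (0 : ℝ) ≤ 0 ∧ (0 : ℝ) ≤ 1
      norm_num
  let val : A.ι ⊕ (B.ι ⊕ Fin q) → ℕ → ℤ := fun x n =>
    lb x n + D * ⌊(lam * (n : ℝ) ^ (q + 2) - lb x n) / D + om x n⌋
  have hval : ∀ x n, |(val x n : ℝ) - lam * (n : ℝ) ^ (q + 2)| ≤ D := by
    intro x n
    show |((lb x n + D * ⌊(lam * (n : ℝ) ^ (q + 2) - lb x n) / D + om x n⌋ : ℤ) : ℝ) - _| ≤ _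
    push_cast
    exact round_err D hDr0 _ _ _ (hom x n).1 (hom x n).2
  classical
  let g : ℕ → ℤ := fun n => if h : ∃ x, n ≡ ρ x [MOD 2 ^ kk x] then val h.choose n
    else ⌊lam * (n : ℝ) ^ (q + 2)⌋
  have hg : ∀ x n, n ≡ ρ x [MOD 2 ^ kk x] → g n = val x n := by
    intro x n hn
    have hex : ∃ x, n ≡ ρ x [MOD 2 ^ kk x] := ⟨x, hn⟩
    show (if h : ∃ x, n ≡ ρ x [MOD 2 ^ kk x] then val h.choose n
      else ⌊lam * (n : ℝ) ^ (q + 2)⌋) = val x n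
    rw [dif_pos hex]
    have : hex.choose = x := by
      by_contra hne
      exact hρd _ _ hne n ⟨hex.choose_spec, hn⟩
    rw [this]
  have hgerr : ∀ n : ℕ, |(g n : ℝ) - lam * (n : ℝ) ^ (q + 2)| ≤ D := by
    intro n
    by_cases hex : ∃ x, n ≡ ρ x [MOD 2 ^ kk x]
    · rw [hg hex.choose n hex.choose_spec]
      exact hval _ _
    · have : g n = ⌊lam * (n : ℝ) ^ (q + 2)⌋ := by
        show (if h : ∃ x, n ≡ ρ x [MOD 2 ^ kk x] then val h.choose n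
          else ⌊lam * (n : ℝ) ^ (q + 2)⌋) = _
        rw [dif_neg hex]
      rw [this]
      have h1 := Int.floor_le (lam * (n : ℝ) ^ (q + 2))
      have h2 := Int.lt_floor_add_one (lam * (n : ℝ) ^ (q + 2))
      rw [abs_le]
      constructor <;> linarith
  refine ⟨g, fun n => (hgerr n).trans hDX, ?_⟩
  intro N hN1 hN2
  -- digits
  set r := N % D with hr
  set v := r % D1 with hv
  set y := r / D1 with hy
  have hyR : y < Re ^ q := by
    rw [hy]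
    apply Nat.div_lt_of_lt_mul
    rw [← hDdef]
    exact Nat.mod_lt _ hD0
  have hydig : y = ∑ e : Fin q, (y / Re ^ (e : ℕ) % Re) * Re ^ (e : ℕ) := by
    conv_lhs => rw [← Nat.mod_eq_of_lt hyR]
    exact digits_sum Re q y
  -- extra elements
  let ne : Fin q → ℕ := fun e =>
    ρ (Sum.inr (Sum.inr e)) % 2 ^ (q + 5) + 2 ^ (q + 5) * (Re + y / Re ^ (e : ℕ) % Re)
  have hne1 : ∀ e, ne e ≡ ρ (Sum.inr (Sum.inr e)) [MOD 2 ^ kk (Sum.inr (Sum.inr e))] := by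
    intro e
    show ρ (Sum.inr (Sum.inr e)) % 2 ^ (q + 5) + 2 ^ (q + 5) * (Re + y / Re ^ (e : ℕ) % Re) ≡
      ρ (Sum.inr (Sum.inr e)) [MOD 2 ^ (q + 5)]
    unfold Nat.ModEq
    rw [Nat.add_mul_mod_self_left, Nat.mod_mod]
  have hne2 : ∀ e, ne e / 2 ^ (q + 5) % Re = y / Re ^ (e : ℕ) % Re := by
    intro e
    have h1 : ne e / 2 ^ (q + 5) = Re + y / Re ^ (e : ℕ) % Re := by
      show (ρ (Sum.inr (Sum.inr e)) % 2 ^ (q + 5) + 2 ^ (q + 5) * (Re + y / Re ^ (e : ℕ) % Re)) /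
        2 ^ (q + 5) = _
      rw [Nat.add_mul_div_left _ _ (by positivity), Nat.div_eq_of_lt (Nat.mod_lt _ (by positivity)),
        zero_add]
    rw [h1, Nat.add_mod_left, Nat.mod_mod]
  have hRe8 : 2 ^ (q + 5) * Re * 8 = 2 ^ J := by
    rw [hRe]
    have : (8 : ℕ) = 2 ^ 3 := by norm_num
    rw [this, ← pow_add, ← pow_add]; congr 1; omega
  have hne3 : ∀ e, 2 ^ J ≤ 8 * ne e ∧ 4 * ne e < 2 ^ J := by
    intro e
    have h1 : ρ (Sum.inr (Sum.inr e)) % 2 ^ (q + 5) < 2 ^ (q + 5) := Nat.mod_lt _ (by positivity)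
    have h2 : y / Re ^ (e : ℕ) % Re < Re := Nat.mod_lt _ hRe0
    have h3 : ne e = ρ (Sum.inr (Sum.inr e)) % 2 ^ (q + 5) +
      2 ^ (q + 5) * (Re + y / Re ^ (e : ℕ) % Re) := rfl
    have h4 : 2 ^ (q + 5) * (y / Re ^ (e : ℕ) % Re + 1) ≤ 2 ^ (q + 5) * Re :=
      Nat.mul_le_mul_left _ h2
    rw [mul_add, mul_one] at h4
    rw [mul_add] at h3
    constructor
    · omega
    · omega
  -- sum of the extra values
  set S : ℤ := ∑ e : Fin q, g (ne e) with hS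
  obtain ⟨m, hm⟩ : ∃ m : ℤ, S = D1 * y + D * m := by
    refine ⟨∑ e : Fin q, ⌊(lam * ((ne e : ℕ) : ℝ) ^ (q + 2) -
      ((((y / Re ^ (e : ℕ) % Re) * D1 * Re ^ (e : ℕ) : ℕ) : ℤ) : ℝ)) / D + 0⌋, ?_⟩
    rw [hS, Finset.mul_sum]
    have h1 : (D1 : ℤ) * y = ∑ e : Fin q, (((y / Re ^ (e : ℕ) % Re) * D1 * Re ^ (e : ℕ) : ℕ) : ℤ) := by
      conv_lhs => rw [hydig]
      push_cast
      rw [Finset.mul_sum]
      apply Finset.sum_congr rfl
      intro e _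
      ring
    rw [h1, ← Finset.sum_add_distrib]
    apply Finset.sum_congr rfl
    intro e _
    rw [hg (Sum.inr (Sum.inr e)) (ne e) (hne1 e)]
    show (((ne e / 2 ^ (q + 5) % Re) * D1 * Re ^ (e : ℕ) : ℕ) : ℤ) +
      D * ⌊(lam * ((ne e : ℕ) : ℝ) ^ (q + 2) -
        ((((ne e / 2 ^ (q + 5) % Re) * D1 * Re ^ (e : ℕ) : ℕ) : ℤ) : ℝ)) / D + 0⌋ = _
    rw [hne2 e]
  set Y : ℝ := 2 ^ (J * (q + 2)) with hY
  have hYX : Y = X * 2 ^ J := by
    rw [hY, hX, ← pow_add]; congr 1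
  have hY0 : 0 < Y := by positivity
  have hqD : ((q : ℝ) + 2) * D ≤ lam * Y / 16 := by
    have h1 : 16 * ((q : ℝ) + 2) ≤ lam * 2 ^ J := by
      rw [div_lt_iff₀ hlam] at hJ2
      have h2 : (2 : ℝ) ^ J2 ≤ 2 ^ J := pow_le_pow_right₀ (by norm_num) hJb
      have h3 : (2 : ℝ) ^ J2 * lam ≤ 2 ^ J * lam := mul_le_mul_of_nonneg_right h2 hlam.le
      linarith
    have h4 : ((q : ℝ) + 2) * D ≤ ((q : ℝ) + 2) * X := mul_le_mul_of_nonneg_left hDX' (by positivity)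
    have h5 : 16 * ((q : ℝ) + 2) * X ≤ lam * 2 ^ J * X := mul_le_mul_of_nonneg_right h1 hX0.le
    rw [hYX]
    linarith
  have hq0 : (0 : ℝ) ≤ q := by positivity
  -- bounds for S
  have hgne : ∀ e, -(D : ℝ) ≤ g (ne e) ∧ (g (ne e) : ℝ) ≤ lam * Y / 4 ^ (q + 2) + D := by
    intro e
    have h1 := hgerr (ne e)
    rw [abs_le] at h1
    have h2 : (0 : ℝ) ≤ lam * (ne e : ℝ) ^ (q + 2) := by positivity
    have h3 : lam * (ne e : ℝ) ^ (q + 2) ≤ lam * Y / 4 ^ (q + 2) := by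
      rw [mul_div_assoc]
      apply mul_le_mul_of_nonneg_left _ hlam.le
      rw [le_div_iff₀ (by positivity), ← mul_pow, hY, pow_mul]
      apply pow_le_pow_left₀ (by positivity)
      have h4 : ((4 * ne e : ℕ) : ℝ) ≤ ((2 ^ J : ℕ) : ℝ) := by exact_mod_cast (hne3 e).2.le
      push_cast at h4
      linarith
    constructor <;> linarith [h1.1, h1.2]
  have hS1 : -((q : ℝ) * D) ≤ S := by
    rw [hS]; push_cast
    have := Finset.card_nsmul_le_sum Finset.univ (fun e : Fin q => (g (ne e) : ℝ)) (-(D : ℝ))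
      (fun e _ => (hgne e).1)
    simp only [Finset.card_univ, Fintype.card_fin, nsmul_eq_mul] at this
    linarith
  have hS2 : (S : ℝ) ≤ lam * Y / 16 + q * D := by
    rw [hS]; push_cast
    have h1 := Finset.sum_le_card_nsmul Finset.univ (fun e : Fin q => (g (ne e) : ℝ))
      (lam * Y / 4 ^ (q + 2) + D) (fun e _ => (hgne e).2)
    simp only [Finset.card_univ, Fintype.card_fin, nsmul_eq_mul] at h1
    have h2 : (q : ℝ) * (lam * Y / 4 ^ (q + 2)) ≤ lam * Y / 16 := by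
      have h3 : (q : ℝ) ≤ 4 ^ q := by
        have : q < 4 ^ q := Nat.lt_pow_self (by norm_num)
        exact_mod_cast this.le
      have h4 : (4 : ℝ) ^ (q + 2) = 4 ^ q * 16 := by rw [pow_add]; norm_num
      rw [h4, ← mul_div_assoc, div_le_div_iff₀ (by positivity) (by norm_num)]
      have h5 : (0 : ℝ) ≤ lam * Y * 16 := by positivity
      calc (q : ℝ) * (lam * Y) * 16 = q * (lam * Y * 16) := by ring
        _ ≤ 4 ^ q * (lam * Y * 16) := mul_le_mul_of_nonneg_right h3 h5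
        _ = _ := by ring
    linarith
  -- the integer M
  set M : ℤ := (N / D : ℕ) - m with hM
  have hNeq : (N : ℤ) - S = v + D * M := by
    have h1 : N = D * (N / D) + r := (Nat.div_add_mod N D).symm
    have h2 : r = D1 * y + v := (Nat.div_add_mod r D1).symm
    have h1' : (N : ℤ) = D * ((N / D : ℕ) : ℤ) + r := by exact_mod_cast h1
    have h2' : (r : ℤ) = D1 * y + v := by exact_mod_cast h2
    rw [hm, hM]
    rw [h1', h2']
    ring
  have hNeqr : (N : ℝ) - S = v + D * M := by exact_mod_cast hNeq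
  -- the real radius
  set Z : ℝ := ((N : ℝ) - S + D / 2) / lam with hZ
  have hYp : lam * 2 ^ ((J + 1) * (q + 2)) = lam * Y * 2 ^ (q + 2) := by
    rw [hY, mul_assoc, ← pow_add]; congr 2; ring
  rw [hYp] at hN2
  have hup : Z ≤ (2 * 2 ^ J) ^ (q + 2) := by
    rw [hZ, div_le_iff₀ hlam]
    have h1 : ((2 : ℝ) * 2 ^ J) ^ (q + 2) * lam = lam * Y * 2 ^ (q + 2) := by
      rw [mul_pow, ← pow_mul]; ring
    rw [h1]
    have h2 : (1 : ℝ) ≤ 2 ^ (q + 2) := one_le_pow₀ (by norm_num)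
    have h3 : lam * Y ≤ lam * Y * 2 ^ (q + 2) := le_mul_of_one_le_right (by positivity) h2
    linarith
  have hlo : (2 ^ J / 2) ^ (q + 2) ≤ Z := by
    rw [hZ, le_div_iff₀ hlam]
    have h1 : ((2 : ℝ) ^ J / 2) ^ (q + 2) = Y / 2 ^ (q + 2) := by
      rw [div_pow, ← pow_mul]
    have h2 : (4 : ℝ) ≤ 2 ^ (q + 2) := by
      have : (2 : ℝ) ^ 2 ≤ 2 ^ (q + 2) := pow_le_pow_right₀ (by norm_num) (by omega)
      linarith
    have h3 : Y / 2 ^ (q + 2) ≤ Y / 4 := div_le_div_of_nonneg_left hY0.le (by norm_num) h2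
    have h4 : Y / 2 ^ (q + 2) * lam ≤ Y / 4 * lam := mul_le_mul_of_nonneg_right h3 hlam.le
    rw [h1]
    linarith
  have hZ0 : 0 ≤ Z := le_trans (by positivity) hlo
  set T : ℝ := Z ^ (((q + 2 : ℕ) : ℝ)⁻¹) with hT
  have hTZ : T ^ (q + 2) = Z := Real.rpow_inv_natCast_pow hZ0 (by omega)
  have hT0 : 0 ≤ T := Real.rpow_nonneg hZ0 _
  have hT1 : 2 ^ J / 2 ≤ T := by
    by_contra hcon
    push Not at hcon
    have := pow_lt_pow_left₀ hcon hT0 (by omega : q + 2 ≠ 0)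
    rw [hTZ] at this
    linarith
  have hT2 : T ≤ 2 * 2 ^ J := by
    by_contra hcon
    push Not at hcon
    have := pow_lt_pow_left₀ hcon (by positivity) (by omega : q + 2 ≠ 0)
    rw [hTZ] at this
    linarith
  have hvD1 : v < D1 := Nat.mod_lt _ hD10
  obtain ⟨i, j, n, n', hn1, hn2, hn3, hn4, hn5, hn6, hn7, hn8⟩ :=
    hserve v (by positivity) (by
      have h1 : (v : ℝ) ≤ D1 := by exact_mod_cast hvD1.le
      have h2 : (D1 : ℝ) = Lk (q + 1) β 8 J := by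
        rw [hD1]; unfold Lk; push_cast
        congr 1
        omega
      rw [← h2]
      exact_mod_cast hvD1.le)
      (fun i => ρ (Sum.inl i)) (fun j => ρ (Sum.inr (Sum.inl j))) 0 0 M T hT1 hT2 (by
        rw [show q + 1 + 1 = q + 2 by ring, hTZ, hZ, mul_div_cancel₀ _ hlam.ne', hNeqr]
        push_cast
        ring)
  have hgn : g n = A.lab i n + D * ⌊(lam * (n : ℝ) ^ (q + 2) - A.lab i n) / D +
      (if n % 3 = 1 then 1 / 2 else 0)⌋ := hg (Sum.inl i) n hn1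
  have hgn' : g n' = B.lab j n' + D * ⌊(lam * (n' : ℝ) ^ (q + 2) - B.lab j n') / D +
      (if n' % 3 = 0 then 1 / 2 else 0)⌋ := hg (Sum.inr (Sum.inl j)) n' hn2
  have hsum2 : g n + g n' = v + D * M := by
    unfold Hit at hn8
    rw [show q + 1 + 1 = q + 2 by ring] at hn8
    simp only [add_zero] at hn8
    rcases hn8 with ⟨h1, h2, h3⟩ | ⟨h1, h2, h3⟩
    · rw [hgn, hgn', if_neg (by omega), if_pos h2, add_zero]
      rw [← h3, mul_add]
      linarith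
    · rw [hgn, hgn', if_pos h1, if_neg (by omega), add_zero]
      rw [← h3, mul_add]
      linarith
  have h2J : 0 < 2 ^ J := by positivity
  refine ⟨Fin.cons n (Fin.cons n' ne), ?_, ?_⟩
  · intro x
    refine Fin.cases ?_ (fun x => ?_) x
    · rw [Fin.cons_zero]
      exact ⟨hρ8 (Sum.inl i) n hn1, hn3, by omega⟩
    · rw [Fin.cons_succ]
      refine Fin.cases ?_ (fun x => ?_) x
      · rw [Fin.cons_zero]
        exact ⟨hρ8 (Sum.inr (Sum.inl j)) n' hn2, hn5, by omega⟩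
      · rw [Fin.cons_succ]
        have := hne3 x
        exact ⟨hρ8 (Sum.inr (Sum.inr x)) _ (hne1 x), by omega, by omega⟩
  · rw [Fin.sum_univ_succ, Fin.sum_univ_succ]
    simp only [Fin.cons_zero, Fin.cons_succ]
    rw [← add_assoc, hsum2, ← hS, ← hNeq]
    ring

end Pool.Agent.helper63.Cas
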