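import Mathlib
import Pool.Agent.helper63.Cas.Scale

set_option autoImplicit false

/-!
Final assembly: a basis of order `q + 2` with `a_n = lam * n ^ (q + 2) + o(n ^ (q + 1))`.
-/

namespace Pool.Agent.helper63.Cas

open Filter Asymptotics

lemma exists_between' (G : ℕ → ℝ) (a b : ℕ) (v : ℝ) (hab : a < b) (h1 : G a ≤ v) (h2 : v < G b) :
    ∃ j, a ≤ j ∧ G j ≤ v ∧ v < G (j + 1) := by
  obtain ⟨d, rfl⟩ : ∃ d, b = a + 1 + d := ⟨b - (a + 1), by omega⟩
  induction d with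
  | zero => exact ⟨a, le_refl _, h1, h2⟩
  | succ d ih =>
    by_cases h3 : v < G (a + 1 + d)
    · exact ih (by omega) h3
    · exact ⟨a + 1 + d, by omega, not_lt.mp h3, h2⟩

lemma nth_range' (f : ℕ → ℕ) (hf : StrictMono f) (n : ℕ) :
    Nat.nth (· ∈ Set.range f) n = f n := by
  classical
  have h1 : Nat.count (· ∈ Set.range f) (f n) = n := by
    rw [Nat.count_eq_card_filter_range]
    have h2 : (Finset.range (f n)).filter (· ∈ Set.range f) = (Finset.range n).image f := by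
      ext x
      simp only [Finset.mem_filter, Finset.mem_range, Finset.mem_image, Set.mem_range]
      constructor
      · rintro ⟨h3, m, rfl⟩
        exact ⟨m, hf.lt_iff_lt.mp h3, rfl⟩
      · rintro ⟨m, hm, rfl⟩
        exact ⟨hf.lt_iff_lt.mpr hm, m, rfl⟩
    rw [h2, Finset.card_image_of_injective _ hf.injective, Finset.card_range]
  have h3 : Nat.nth (· ∈ Set.range f) (Nat.count (· ∈ Set.range f) (f n)) = f n :=
    Nat.nth_count ⟨n, rfl⟩
  rwa [h1] at h3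

/-- lower bound for consecutive powers -/
lemma pow_step (n : ℝ) (hn : 0 ≤ n) (q : ℕ) :
    n ^ (q + 2) + 2 * n ^ (q + 1) ≤ (n + 1) ^ (q + 2) := by
  induction q with
  | zero =>
    have : (n + 1) ^ (0 + 2) = n ^ 2 + 2 * n + 1 := by ring
    rw [this]
    simp only [zero_add, pow_one]
    linarith
  | succ q ih =>
    have h1 : (n + 1) ^ (q + 1 + 2) = (n + 1) ^ (q + 2) * (n + 1) := by ring
    rw [h1]
    have h2 : (n ^ (q + 2) + 2 * n ^ (q + 1)) * (n + 1) ≤ (n + 1) ^ (q + 2) * (n + 1) :=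
      mul_le_mul_of_nonneg_right ih (by linarith)
    refine le_trans ?_ h2
    have h3 : (n ^ (q + 2) + 2 * n ^ (q + 1)) * (n + 1) =
        n ^ (q + 1 + 2) + 3 * n ^ (q + 1 + 1) + 2 * n ^ (q + 1) := by ring
    rw [h3]
    have h4 : 0 ≤ n ^ (q + 1 + 1) := by positivity
    have h5 : 0 ≤ n ^ (q + 1) := by positivity
    linarith

/-- the scale attached to an index -/
def Jn (n : ℕ) : ℕ := (Nat.log 2 n - 2) + ((n - (Nat.log 2 n - 2)) % 8)

lemma Jn_unique (n J : ℕ) (hn : 4 ≤ n) (h8 : n % 8 = J % 8) (h1 : 2 ^ J ≤ 32 * n)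
    (h2 : n < 8 * 2 ^ J) : Jn n = J := by
  have hl1 : 2 ^ (Nat.log 2 n) ≤ n := Nat.pow_log_le_self 2 (by omega)
  have hl2 : n < 2 ^ (Nat.log 2 n + 1) := Nat.lt_pow_succ_log_self (by norm_num) n
  have hl3 : 2 ≤ Nat.log 2 n := by
    have : Nat.log 2 4 = 2 := by
      have : (4 : ℕ) = 2 ^ 2 := by norm_num
      rw [this, Nat.log_pow (by norm_num)]
    rw [← this]
    exact Nat.log_mono_right hn
  have hl4 : Nat.log 2 n ≤ n := Nat.log_le_self 2 n
  have h3 : J < Nat.log 2 n + 6 := by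
    have : 2 ^ J < 2 ^ (Nat.log 2 n + 6) := by
      calc 2 ^ J ≤ 32 * n := h1
        _ < 32 * 2 ^ (Nat.log 2 n + 1) := by omega
        _ = 2 ^ (Nat.log 2 n + 6) := by
            rw [pow_add, pow_add]; norm_num; ring
    exact (Nat.pow_lt_pow_iff_right (by norm_num)).mp this
  have h4 : Nat.log 2 n < J + 3 := by
    have : 2 ^ (Nat.log 2 n) < 2 ^ (J + 3) := by
      calc 2 ^ (Nat.log 2 n) ≤ n := hl1
        _ < 8 * 2 ^ J := h2
        _ = 2 ^ (J + 3) := by rw [pow_add]; norm_num; ring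
    exact (Nat.pow_lt_pow_iff_right (by norm_num)).mp this
  unfold Jn
  omega

lemma Jn_bound (n : ℕ) (hn : 4 ≤ n) : Nat.log 2 n - 2 ≤ Jn n ∧ 2 ^ (Jn n) ≤ 32 * n := by
  have hl1 : 2 ^ (Nat.log 2 n) ≤ n := Nat.pow_log_le_self 2 (by omega)
  have hl3 : 2 ≤ Nat.log 2 n := by
    have : Nat.log 2 4 = 2 := by
      have : (4 : ℕ) = 2 ^ 2 := by norm_num
      rw [this, Nat.log_pow (by norm_num)]
    rw [← this]
    exact Nat.log_mono_right hn
  refine ⟨by unfold Jn; omega, ?_⟩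
  have h1 : Jn n ≤ Nat.log 2 n + 5 := by unfold Jn; omega
  calc 2 ^ (Jn n) ≤ 2 ^ (Nat.log 2 n + 5) := Nat.pow_le_pow_right (by norm_num) h1
    _ = 32 * 2 ^ (Nat.log 2 n) := by rw [pow_add]; norm_num; ring
    _ ≤ 32 * n := Nat.mul_le_mul_left _ hl1

/-- generic final assembly -/
lemma assemble (q : ℕ) (lam : ℝ) (hlam : 0 < lam) (a : ℕ → ℤ)
    (herr : (fun n : ℕ => (a n : ℝ) - lam * (n : ℝ) ^ (q + 2)) =o[atTop]
      fun n : ℕ => (n : ℝ) ^ (q + 1))
    (hrep : ∀ n1 : ℕ, ∃ N0 : ℕ, ∀ N ≥ N0, ∃ f : Fin (q + 2) → ℕ, (∀ i, n1 ≤ f i) ∧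
      ∑ i, a (f i) = (N : ℤ)) :
    ∃ A : Set ℕ, A.Infinite ∧
      (∃ n0 : ℕ, ∀ n ≥ n0, ∃ f : Fin (q + 2) → ℕ, (∀ i, f i ∈ A) ∧ ∑ i, f i = n) ∧
      (fun n : ℕ => (Nat.nth (· ∈ A) (n - 1) : ℝ) - lam * (n : ℝ) ^ (q + 2)) =o[atTop]
        fun n : ℕ => (n : ℝ) ^ (q + 1) := by
  have hc : 0 < lam / 2 ^ (q + 3) := by positivity
  have herr' := (isLittleO_iff.mp herr) hc
  obtain ⟨n2, hn2⟩ := eventually_atTop.mp herr'
  obtain ⟨n3, hn3⟩ := exists_nat_ge (2 / lam + 2)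
  set n1 := max n2 n3 + 1 with hn1
  have hb : ∀ n, n1 ≤ n → |(a n : ℝ) - lam * (n : ℝ) ^ (q + 2)| ≤
      lam / 2 ^ (q + 3) * (n : ℝ) ^ (q + 1) := by
    intro n hn
    have h1 := hn2 n (by omega)
    rw [Real.norm_eq_abs, Real.norm_eq_abs, abs_of_nonneg (by positivity : (0 : ℝ) ≤ (n : ℝ) ^ (q + 1))]
      at h1
    exact h1
  have h2q : (1 : ℝ) ≤ 2 ^ q := one_le_pow₀ (by norm_num)
  have h8 : lam / 2 ^ (q + 3) ≤ lam / 8 := by
    apply div_le_div_of_nonneg_left hlam.le (by norm_num)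
    rw [pow_add]; norm_num; linarith
  have hge : ∀ n, n1 ≤ n → (n : ℝ) ≤ a n := by
    intro n hn
    have h1 := hb n hn
    rw [abs_le] at h1
    have h2 : ((n3 : ℕ) : ℝ) ≤ n := by exact_mod_cast (by omega : n3 ≤ n)
    have h3 : 2 / lam + 2 ≤ (n : ℝ) := hn3.trans h2
    have h4 : 2 ≤ lam * ((n : ℝ) - 2) := by
      have : 2 / lam ≤ (n : ℝ) - 2 := by linarith
      rw [div_le_iff₀ hlam] at this
      linarith
    have hn0 : (1 : ℝ) ≤ n := by
      have : 1 ≤ n := by omega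
      exact_mod_cast this
    have h5 : (n : ℝ) ≤ (n : ℝ) ^ (q + 1) := le_self_pow₀ hn0 (by omega)
    have h6 : lam / 2 ^ (q + 3) * (n : ℝ) ^ (q + 1) ≤ lam * (n : ℝ) ^ (q + 1) := by
      apply mul_le_mul_of_nonneg_right _ (by positivity)
      linarith
    have h7 : lam * (n : ℝ) ^ (q + 2) - lam * (n : ℝ) ^ (q + 1) =
        lam * ((n : ℝ) - 1) * (n : ℝ) ^ (q + 1) := by ring
    have h9 : 1 ≤ lam * ((n : ℝ) - 1) := by linarith
    have h10 : (n : ℝ) ≤ lam * ((n : ℝ) - 1) * (n : ℝ) ^ (q + 1) := by nlinarith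
    linarith [h1.1]
  have hmono : ∀ n, n1 ≤ n → a n < a (n + 1) := by
    intro n hn
    have h1 := hb n hn
    have h2 := hb (n + 1) (by omega)
    rw [abs_le] at h1 h2
    push_cast at h2
    have hn0 : (1 : ℝ) ≤ n := by
      have : 1 ≤ n := by omega
      exact_mod_cast this
    have h3 := pow_step (n : ℝ) (by linarith) q
    have h4 : ((n : ℝ) + 1) ^ (q + 1) ≤ 2 ^ (q + 1) * (n : ℝ) ^ (q + 1) := by
      rw [← mul_pow]
      apply pow_le_pow_left₀ (by positivity)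
      linarith
    have hpn : 0 < lam * (n : ℝ) ^ (q + 1) := by positivity
    have h5 : lam / 2 ^ (q + 3) * ((n : ℝ) + 1) ^ (q + 1) ≤ 1 / 4 * (lam * (n : ℝ) ^ (q + 1)) := by
      calc lam / 2 ^ (q + 3) * ((n : ℝ) + 1) ^ (q + 1) ≤
          lam / 2 ^ (q + 3) * (2 ^ (q + 1) * (n : ℝ) ^ (q + 1)) := by gcongr
        _ = 1 / 4 * (lam * (n : ℝ) ^ (q + 1)) := by
            rw [show q + 3 = (q + 1) + 2 by ring, pow_add (2 : ℝ) (q + 1) 2]
            field_simp
            norm_num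
    have h6 : lam / 2 ^ (q + 3) * (n : ℝ) ^ (q + 1) ≤ 1 / 4 * (lam * (n : ℝ) ^ (q + 1)) := by
      have : lam / 2 ^ (q + 3) * (n : ℝ) ^ (q + 1) ≤ lam / 8 * (n : ℝ) ^ (q + 1) :=
        mul_le_mul_of_nonneg_right h8 (by positivity)
      have h7 : lam / 8 * (n : ℝ) ^ (q + 1) = 1 / 8 * (lam * (n : ℝ) ^ (q + 1)) := by ring
      linarith
    have h7 : lam * ((n : ℝ) ^ (q + 2) + 2 * (n : ℝ) ^ (q + 1)) ≤ lam * ((n : ℝ) + 1) ^ (q + 2) :=
      mul_le_mul_of_nonneg_left h3 hlam.le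
    rw [mul_add] at h7
    have h9 : (a n : ℝ) < a (n + 1) := by
      have e1 := h1.2
      have e2 := h2.1
      linarith
    exact_mod_cast h9
  -- modified sequence
  set f : ℕ → ℕ := fun n => if n < n1 then n else (a n).toNat with hf
  have hapos : ∀ n, n1 ≤ n → (n : ℤ) ≤ a n := fun n hn => by exact_mod_cast hge n hn
  have hfmono : StrictMono f := by
    apply strictMono_nat_of_lt_succ
    intro n
    simp only [hf]
    by_cases h1 : n + 1 < n1
    · rw [if_pos (by omega), if_pos h1]; omega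
    · by_cases h2 : n < n1
      · rw [if_pos h2, if_neg h1]
        have := hapos (n + 1) (by omega)
        push_cast at this
        omega
      · rw [if_neg h2, if_neg h1]
        have h3 := hmono n (by omega)
        have h4 := hapos n (by omega)
        omega
  set f1 : ℕ → ℕ := fun n => f (n + 1) with hf1
  have hf1mono : StrictMono f1 := fun m n hmn => hfmono (by omega)
  refine ⟨Set.range f1, Set.infinite_range_of_injective hf1mono.injective, ?_, ?_⟩
  · obtain ⟨N0, hN0⟩ := hrep n1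
    refine ⟨N0, ?_⟩
    intro N hN
    obtain ⟨r, hr1, hr2⟩ := hN0 N hN
    refine ⟨fun i => (a (r i)).toNat, ?_, ?_⟩
    · intro i
      refine ⟨r i - 1, ?_⟩
      simp only [hf1, hf]
      have := hr1 i
      rw [show r i - 1 + 1 = r i by omega, if_neg (by omega)]
    · have : ((∑ i, (a (r i)).toNat : ℕ) : ℤ) = N := by
        push_cast
        rw [← hr2]
        apply Finset.sum_congr rfl
        intro i _
        have := hapos (r i) (hr1 i)
        omega
      exact_mod_cast this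
  · refine (isLittleO_congr ?_ (EventuallyEq.refl _ _)).mpr herr
    filter_upwards [eventually_ge_atTop n1] with n hn
    have h1 : n - 1 + 1 = n := by omega
    have h2 : Nat.nth (· ∈ Set.range f1) (n - 1) = (a n).toNat := by
      rw [nth_range' f1 hf1mono]
      simp only [hf1, hf]
      rw [h1, if_neg (by omega)]
    rw [h2]
    have h3 := hapos n hn
    have h4 : (((a n).toNat : ℤ)) = a n := Int.toNat_of_nonneg (by omega)
    have h5 : (((a n).toNat : ℕ) : ℝ) = (a n : ℝ) := by exact_mod_cast h4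
    rw [h5]

theorem main (q : ℕ) :
    ∃ lam0 : ℝ, 0 < lam0 ∧ ∀ lam : ℝ, 0 < lam → lam ≤ lam0 →
      ∃ A : Set ℕ, A.Infinite ∧
        (∃ n0 : ℕ, ∀ n ≥ n0, ∃ f : Fin (q + 2) → ℕ, (∀ i, f i ∈ A) ∧ ∑ i, f i = n) ∧
        (fun n : ℕ => (Nat.nth (· ∈ A) (n - 1) : ℝ) - lam * (n : ℝ) ^ (q + 2)) =o[atTop]
          fun n : ℕ => (n : ℝ) ^ (q + 1) := by
  set c : ℝ := 504 * (((q + 1 : ℕ) : ℝ) + 1) * 2 ^ (q + 1) * 2 ^ (57 + q + (q + 8) * q) with hc
  have hc0 : 0 < c := by positivity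
  refine ⟨1 / c, by positivity, ?_⟩
  intro lam hlam hle
  have hl0 : 504 * (((q + 1 : ℕ) : ℝ) + 1) * lam * 2 ^ (q + 1) * 2 ^ (57 + q + (q + 8) * q) ≤ 1 := by
    rw [le_div_iff₀ hc0] at hle
    calc _ = lam * c := by rw [hc]; ring
      _ ≤ 1 := hle
  choose J1 hJ1 using fun β : ℕ => scale q β lam hlam hl0
  -- the level function
  let bet : ℕ → ℕ := fun J => Nat.findGreatest (fun β => J1 β ≤ J) J
  have hbet : ∀ J, J1 0 ≤ J → J1 (bet J) ≤ J := by
    intro J hJ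
    exact Nat.findGreatest_spec (P := fun β => J1 β ≤ J) (Nat.zero_le J) hJ
  have hbet2 : ∀ b J, b ≤ J → J1 b ≤ J → b ≤ bet J := by
    intro b J h1 h2
    exact Nat.le_findGreatest h1 h2
  choose g hg1 hg2 using fun (J : ℕ) (h : J1 (bet J) ≤ J) => hJ1 (bet J) J h
  classical
  let G : ℕ → ℕ → ℤ := fun J n => if h : J1 (bet J) ≤ J then g J h n else 0
  let a : ℕ → ℤ := fun n => G (Jn n) n
  have hG : ∀ J (h : J1 (bet J) ≤ J) n, G J n = g J h n := by
    intro J h n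
    show (if h : J1 (bet J) ≤ J then g J h n else 0) = _
    rw [dif_pos h]
  apply assemble q lam hlam a
  · -- error
    rw [isLittleO_iff]
    intro ε hε
    obtain ⟨b, hb⟩ := pow_unbounded_of_one_lt ((32 : ℝ) ^ (q + 1) / ε) (by norm_num : (1 : ℝ) < 2)
    set Jm := max (J1 0) (max b (J1 b)) with hJm
    filter_upwards [eventually_ge_atTop (max 4 (2 ^ (Jm + 2)))] with n hn
    have hn4 : 4 ≤ n := (le_max_left _ _).trans hn
    have hn5 : 2 ^ (Jm + 2) ≤ n := (le_max_right _ _).trans hn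
    have h1 : Jm + 2 ≤ Nat.log 2 n := Nat.le_log_of_pow_le (by norm_num) hn5
    obtain ⟨h2, h3⟩ := Jn_bound n hn4
    have h4 : Jm ≤ Jn n := by omega
    have h5 : J1 0 ≤ Jn n := (le_max_left _ _).trans h4
    have h6 : b ≤ Jn n := (le_max_left _ _).trans ((le_max_right _ _).trans h4)
    have h7 : J1 b ≤ Jn n := (le_max_right _ _).trans ((le_max_right _ _).trans h4)
    have h8 := hbet _ h5
    have h9 := hbet2 b _ h6 h7
    have h10 := hg1 (Jn n) h8 n
    have h11 : (a n : ℝ) = (g (Jn n) h8 n : ℝ) := by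
      have : a n = g (Jn n) h8 n := hG (Jn n) h8 n
      rw [this]
    rw [Real.norm_eq_abs, Real.norm_eq_abs, abs_of_nonneg (by positivity : (0 : ℝ) ≤ (n : ℝ) ^ (q + 1)),
      h11]
    refine h10.trans ?_
    rw [div_le_iff₀ (by positivity)]
    have h12 : (2 : ℝ) ^ (Jn n * (q + 1)) ≤ (32 * n) ^ (q + 1) := by
      rw [pow_mul]
      apply pow_le_pow_left₀ (by positivity)
      exact_mod_cast h3
    have h13 : (2 : ℝ) ^ b ≤ 2 ^ (bet (Jn n)) := pow_le_pow_right₀ (by norm_num) h9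
    rw [div_lt_iff₀ hε] at hb
    calc (2 : ℝ) ^ (Jn n * (q + 1)) ≤ (32 * n) ^ (q + 1) := h12
      _ = 32 ^ (q + 1) * (n : ℝ) ^ (q + 1) := by rw [mul_pow]
      _ ≤ (2 ^ (bet (Jn n)) * ε) * (n : ℝ) ^ (q + 1) := by
          apply mul_le_mul_of_nonneg_right _ (by positivity)
          exact hb.le.trans (mul_le_mul_of_nonneg_right h13 hε.le)
      _ = _ := by ring
  · -- representation
    intro n1
    set Jm := max (J1 0) (n1 + 7) with hJm
    obtain ⟨N0, hN0⟩ := exists_nat_ge (lam * 2 ^ (Jm * (q + 2)))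
    refine ⟨N0, ?_⟩
    intro N hN
    have hNr : (N0 : ℝ) ≤ N := by exact_mod_cast hN
    have hNn : (0 : ℝ) ≤ N := by positivity
    obtain ⟨b, hb⟩ := pow_unbounded_of_one_lt (2 * (N : ℝ) / lam) (by norm_num : (1 : ℝ) < 2)
    rw [div_lt_iff₀ hlam] at hb
    obtain ⟨J, hJa, hJb, hJc⟩ := exists_between' (fun J => lam * 2 ^ (J * (q + 2))) Jm (Jm + 1 + b)
      (2 * N) (by omega) (by linarith) (by
        refine lt_of_lt_of_le hb ?_
        rw [mul_comm]
        apply mul_le_mul_of_nonneg_left _ hlam.le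
        apply pow_le_pow_right₀ (by norm_num)
        have : (Jm + 1 + b) * 1 ≤ (Jm + 1 + b) * (q + 2) := Nat.mul_le_mul_left _ (by omega)
        omega)
    have h1 : J1 0 ≤ J := (le_max_left _ _).trans hJa
    have h2 : n1 + 7 ≤ J := (le_max_right _ _).trans hJa
    have h3 := hbet J h1
    obtain ⟨f, hf1, hf2⟩ := hg2 J h3 N hJb hJc
    have h4 : n1 + 7 < 2 ^ (n1 + 7) := Nat.lt_two_pow_self
    have h5 : 2 ^ (n1 + 7) ≤ 2 ^ J := Nat.pow_le_pow_right (by norm_num) h2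
    have h6 : 128 * 2 ^ n1 ≤ 2 ^ J := by
      calc 128 * 2 ^ n1 = 2 ^ (n1 + 7) := by rw [pow_add]; norm_num; ring
        _ ≤ 2 ^ J := h5
    have h7 : n1 < 2 ^ n1 := Nat.lt_two_pow_self
    refine ⟨f, ?_, ?_⟩
    · intro i
      obtain ⟨-, h8, -⟩ := hf1 i
      omega
    · rw [← hf2]
      apply Finset.sum_congr rfl
      intro i _
      obtain ⟨h8, h9, h10⟩ := hf1 i
      have h11 : Jn (f i) = J := Jn_unique (f i) J (by omega) h8 h9 h10
      show G (Jn (f i)) (f i) = _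
      rw [h11]
      exact hG J h3 (f i)

end Pool.Agent.helper63.Cas
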